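import Pool.Agent.MP_1246c0_nt.H12.SpecR

/-! The number of short chains. -/

namespace Pool.Agent.MP_1246c0_nt.H12

open Polynomial Finset Matrix

namespace CH

variable {ι : Type} [Fintype ι] [DecidableEq ι] {k : ℕ}

theorem two : (2 : F2) = 0 := rfl

abbrev V (k : ℕ) : Type := Fin (k + 1) → F2

/-- a biadditive function as a map -/
def mk2 {A : Type} [AddCommGroup A] (f : A → A → F2) (h1 : ∀ x x' y, f (x + x') y = f x y + f x' y)
    (h2 : ∀ x y y', f x (y + y') = f x y + f x y') : A →+ A →+ F2 :=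
  AddMonoidHom.mk' (fun x => AddMonoidHom.mk' (f x) (h2 x))
    fun x x' => AddMonoidHom.ext fun y => h1 x x' y

/-- the polar form of a monomial -/
def mon (i j : Fin (k + 1)) : V k →+ V k →+ F2 :=
  mk2 (fun v w => v i * w j + v j * w i) (fun _ _ _ => by simp only [Pi.add_apply]; ring)
    fun _ _ _ => by simp only [Pi.add_apply]; ring

theorem mon_apply (i j : Fin (k + 1)) (v w : V k) : mon i j v w = v i * w j + v j * w i := rfl

/-- the polar form of `Q` on vectors with support in `J` -/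
def Pol (J : Finset ι) (Q : (ι → V k) → F2) (π : V k →+ V k →+ F2) : Prop :=
  ∃ b : (ι → V k) →+ (ι → V k) →+ F2,
    (∀ x0 x x', Q (x0 + x + x') + Q (x0 + x) + Q (x0 + x') + Q x0 = b x x') ∧
    ∀ x x', (∀ l, l ∉ J → x l = 0) → (∀ l, l ∉ J → x' l = 0) → ∑ l, x l = 0 →
      b x x' = ∑ l ∈ J, π (x l) (x' l)

section
variable {J : Finset ι} {Q Q' : (ι → V k) → F2} {π π' : V k →+ V k →+ F2}

omit [DecidableEq ι] in
theorem Pol.add (h : Pol J Q π) (h' : Pol J Q' π') : Pol J (fun x => Q x + Q' x) (π + π') := by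
  obtain ⟨b, h1, h2⟩ := h
  obtain ⟨b', h3, h4⟩ := h'
  refine ⟨b + b', fun x0 x x' => ?_, fun x x' a c d => ?_⟩
  · simp only [AddMonoidHom.add_apply, ← h1 x0, ← h3 x0]; ring
  · simp only [AddMonoidHom.add_apply, h2 x x' a c d, h4 x x' a c d, sum_add_distrib]

omit [DecidableEq ι] in
theorem Pol.smul (h : Pol J Q π) (c : F2) : Pol J (fun x => c * Q x) (c • π) := by
  obtain ⟨b, h1, h2⟩ := h
  refine ⟨c • b, fun x0 x x' => ?_, fun x x' a c' d => ?_⟩
  · simp only [AddMonoidHom.smul_apply, smul_eq_mul, ← h1 x0]; ring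
  · simp only [AddMonoidHom.smul_apply, smul_eq_mul, h2 x x' a c' d, mul_sum]

omit [DecidableEq ι] in
theorem Pol.lin (h : ∀ x x', Q (x + x') = Q x + Q x') : Pol J Q 0 := by
  refine ⟨0, fun x0 x x' => ?_, fun x x' _ _ _ => by simp⟩
  simp only [h, AddMonoidHom.zero_apply]
  linear_combination (2 * Q x0 + Q x + Q x') * two

omit [DecidableEq ι] in
theorem Pol.sum {κ : Type} (s : Finset κ) {Q : κ → (ι → V k) → F2} {π : κ → V k →+ V k →+ F2}
    (h : ∀ t ∈ s, Pol J (Q t) (π t)) : Pol J (fun x => ∑ t ∈ s, Q t x) (∑ t ∈ s, π t) := by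
  classical
  induction s using Finset.induction_on with
  | empty => simpa using Pol.lin (J := J) (Q := fun _ => 0) fun _ _ => (add_zero _).symm
  | insert a s ha ih =>
    simp only [sum_insert ha]
    exact (h a (mem_insert_self _ _)).add (ih fun t ht => h t (mem_insert_of_mem ht))

omit [DecidableEq ι] in
theorem Pol.bil (f : (ι → V k) → (ι → V k) → F2) (h1 : ∀ x x' y, f (x + x') y = f x y + f x' y)
    (h2 : ∀ x y y', f x (y + y') = f x y + f x y')
    (h3 : ∀ x x', (∀ l, l ∉ J → x l = 0) → (∀ l, l ∉ J → x' l = 0) → ∑ l, x l = 0 →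
      f x x' + f x' x = ∑ l ∈ J, π (x l) (x' l)) : Pol J (fun x => f x x) π := by
  refine ⟨mk2 f h1 h2 + (mk2 f h1 h2).flip, fun x0 x x' => ?_, h3⟩
  change _ = f x x' + f x' x
  simp only [h1, h2]
  linear_combination (2 * f x0 x0 + f x0 x + f x x0 + f x x + f x0 x' + f x' x0 + f x' x') * two

theorem Pol.bd (hq : SQF) (h : Pol J Q π) (h0 : π ≠ 0) :
    (∑ᶠ x, sg (Q x)) ^ 2 ≤ (Nat.card (ι → V k) : ℝ) ^ 2 * Nat.card (V k) / 2 ^ J.card := by
  obtain ⟨b, h1, h2⟩ := h
  let r : (ι → V k) →+ (ι → V k) →+ F2 := mk2 (fun x x' => ∑ l ∈ J, π (x l) (x' l))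
    (fun _ _ _ => by simp [sum_add_distrib]) fun _ _ _ => by simp [sum_add_distrib]
  refine hq.qb (V k) ι (V k) J Q π (b - r)
    (AddMonoidHom.mk' (fun x => ∑ l, x l) fun _ _ => by simp [sum_add_distrib]) h0
    (fun x x' a c d => ?_) fun x0 x x' _ _ => ?_
  · exact sub_eq_zero.2 (h2 x x' a c d)
  · rw [h1]
    exact (add_sub_cancel _ _).symm

end

omit [Fintype ι] [DecidableEq ι] in
theorem dot_addl (B : Finset ι) (u u' w : ι → F2) : dot B (u + u') w = dot B u w + dot B u' w := by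
  simp only [dot, Pi.add_apply, add_mul, sum_add_distrib]

omit [Fintype ι] [DecidableEq ι] in
theorem dot_addr (B : Finset ι) (u w w' : ι → F2) : dot B u (w + w') = dot B u w + dot B u w' := by
  simp only [dot, Pi.add_apply, mul_add, sum_add_distrib]

omit [Fintype ι] [DecidableEq ι] in
theorem dot_subr (B : Finset ι) (u w w' : ι → F2) : dot B u (w - w') = dot B u w + dot B u w' := by
  simp only [dot, Pi.sub_apply, CharTwo.sub_eq_add, mul_add, sum_add_distrib]

omit [Fintype ι] in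
theorem pt_add (P : Finset ι) (o : F2) (w w' : ι → F2) :
    pt P o (w + w') = pt P o w + pt P o w' := by
  funext l
  simp only [pt, Pi.add_apply, sum_add_distrib]
  split_ifs <;> ring

omit [Fintype ι] in
theorem dot_pt_sum (B P : Finset ι) (o : F2) (u : ι → F2) (a : V k) (y : Fin (k + 1) → ι → F2) :
    dot B u (pt P o (∑ j, a j • y j)) = ∑ j, a j * dot B u (pt P o (y j)) := by
  simp only [dot, mul_sum]
  rw [sum_comm]
  refine sum_congr rfl fun l _ => ?_
  simp only [pt, Finset.sum_apply, Pi.smul_apply, smul_eq_mul]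
  split_ifs
  · rw [sum_comm, mul_sum, ← sum_add_distrib, mul_sum]
    exact sum_congr rfl fun j _ => by rw [← mul_sum]; ring
  · simp

omit [Fintype ι] [DecidableEq ι] in
theorem sum_supp {J T : Finset ι} (h : J ⊆ T) {u : ι → F2} (hu : ∀ l, l ∉ J → u l = 0)
    (w : ι → F2) : ∑ l ∈ T, u l * w l = ∑ l ∈ J, u l * w l :=
  (sum_subset h fun l _ hl => by rw [hu l hl, zero_mul]).symm

theorem dpt {J B P : Finset ι} (hB : J ⊆ B) (hP : J ⊆ P) (o : F2) {u w : ι → F2}
    (hu : ∀ l, l ∉ J → u l = 0) (hw : ∀ l, l ∉ J → w l = 0) (h : ∑ l, u l = 0 ∨ ∑ l, w l = 0) :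
    dot B u (pt P o w) = ∑ l ∈ J, u l * w l := by
  have e1 : ∑ l, u l = ∑ l ∈ J, u l := by simpa using sum_supp (subset_univ J) hu 1
  have e2 : ∑ l, w l = ∑ l ∈ P, w l := by
    simpa using (sum_supp (subset_univ J) hw 1).trans (sum_supp hP hw 1).symm
  rw [dot, sum_supp hB hu, sum_congr rfl (g := fun l => u l * w l + u l * (o * ∑ l ∈ P, w l))
    fun l hl => by simp only [pt, if_pos (hP hl), mul_add], sum_add_distrib, ← sum_mul, ← e1, ← e2]
  rcases h with h | h <;> simp [h]

theorem dS {J B : Finset ι} {S : Matrix ι ι F2} {e : ι → F2} {ε : F2} (hB : J ⊆ B)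
    (hs : Sym i2 i2 S e B) (he : ∀ l ∈ J, e l = ε) {u w : ι → F2}
    (hu : ∀ l, l ∉ J → u l = 0) (hw : ∀ l, l ∉ J → w l = 0) (h : ∑ l, u l = 0) :
    dot B u (S *ᵥ w) + dot B w (S *ᵥ u) = ε * ∑ l ∈ J, u l * w l := by
  have e1 : ∑ l ∈ J, u l = 0 := by
    rw [← h]; simpa using (sum_supp (subset_univ J) hu 1).symm
  have f : ∀ {u w : ι → F2}, (∀ l, l ∉ J → u l = 0) → (∀ l, l ∉ J → w l = 0) →
      dot B u (S *ᵥ w) = ∑ l ∈ J, ∑ l' ∈ J, u l * w l' * S l l' := by
    intro u w hu hw
    rw [dot, sum_supp hB hu]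
    refine sum_congr rfl fun l _ => ?_
    rw [mulVec, dotProduct_comm, dotProduct, sum_supp (subset_univ J) hw, mul_sum]
    exact sum_congr rfl fun _ _ => by ring
  rw [f hu hw, f hw hu, sum_comm (f := fun l l' => w l * u l' * S l l'), ← sum_add_distrib]
  have g : ∀ l ∈ J, ∑ l' ∈ J, u l * w l' * S l l' + ∑ l' ∈ J, w l' * u l * S l' l =
      u l * (ε * ε * ∑ l' ∈ J, w l') + ε * (u l * w l) := by
    intro l hl
    have : ∀ l' ∈ J, u l * w l' * S l l' + w l' * u l * S l' l =
        u l * (ε * ε * w l') + if l = l' then ε * (u l * w l') else 0 := by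
      intro l' hl'
      have := hs l (hB hl) l' (hB hl')
      simp only [RingHom.id_apply, he l hl, he l' hl', ZMod.natCast_zmod_val] at this
      split_ifs at this ⊢ <;> linear_combination (u l * w l') * this
    rw [← sum_add_distrib, sum_congr rfl this, sum_add_distrib, sum_ite_eq, if_pos hl, mul_sum,
      mul_sum]
  rw [sum_congr rfl g, sum_add_distrib, ← sum_mul, e1, zero_mul, zero_add, mul_sum]

/-- the rows -/
def sw (x : ι → V k) : Fin (k + 1) → ι → F2 := fun j l => x l j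

omit [Fintype ι] [DecidableEq ι] in
theorem sw_add (x x' : ι → V k) : sw (x + x') = sw x + sw x' := rfl

omit [Fintype ι] [DecidableEq ι] in
theorem sw_supp {J : Finset ι} {x : ι → V k} (h : ∀ l, l ∉ J → x l = 0) (j : Fin (k + 1)) :
    ∀ l, l ∉ J → sw x j l = 0 := fun l hl => congrFun (h l hl) j

omit [DecidableEq ι] in
theorem sw_sum {x : ι → V k} (h : ∑ l, x l = 0) (j : Fin (k + 1)) : ∑ l, sw x j l = 0 := by
  simpa [sw] using congrFun h j

theorem pol_pt {J B P : Finset ι} (hB : J ⊆ B) (hP : J ⊆ P) (o : F2) (i j : Fin (k + 1)) :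
    Pol J (fun x => dot B (sw x i) (pt P o (sw x j))) (mon i j) := by
  refine Pol.bil (fun x x' => dot B (sw x i) (pt P o (sw x' j)))
    (fun _ _ _ => by simp only [sw_add, Pi.add_apply, dot_addl])
    (fun _ _ _ => by simp only [sw_add, Pi.add_apply, pt_add, dot_addr]) fun x x' a b c => ?_
  simp only [dpt hB hP o (sw_supp a i) (sw_supp b j) (Or.inl (sw_sum c i)),
    dpt hB hP o (sw_supp b i) (sw_supp a j) (Or.inr (sw_sum c j)), mon_apply, ← sum_add_distrib]
  exact sum_congr rfl fun l _ => by simp only [sw]; ring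

theorem pol_S {J B : Finset ι} {S : Matrix ι ι F2} {e : ι → F2} {ε : F2} (hB : J ⊆ B)
    (hs : Sym i2 i2 S e B) (he : ∀ l ∈ J, e l = ε) (i j : Fin (k + 1)) :
    Pol J (fun x => dot B (sw x i) (S *ᵥ sw x j) + dot B (sw x j) (S *ᵥ sw x i)) (ε • mon i j) := by
  refine Pol.bil (fun x x' => dot B (sw x i) (S *ᵥ sw x' j) + dot B (sw x j) (S *ᵥ sw x' i))
    (fun _ _ _ => by simp only [sw_add, Pi.add_apply, dot_addl]; ring)
    (fun _ _ _ => by simp only [sw_add, Pi.add_apply, mulVec_add, dot_addr]; ring)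
    fun x x' a b c => ?_
  have h1 := dS hB hs he (sw_supp a i) (sw_supp b j) (sw_sum c i)
  have h2 := dS hB hs he (sw_supp a j) (sw_supp b i) (sw_sum c j)
  simp only [AddMonoidHom.smul_apply, smul_eq_mul, mon_apply, ← mul_sum, sum_add_distrib]
  simp only [sw] at h1 h2 ⊢
  linear_combination h1 + h2

/-- the index set of the conditions -/
abbrev Ix (B : Finset ι) (I : Finset (Fin (k + 1))) : Type :=
  Fin (k + 1) ⊕ (Fin k × {l // l ∈ Bᶜ}) ⊕ {p : Fin k × Fin k // p.1 < p.2} ⊕ {i // i ∈ I}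

theorem card_Ix (B : Finset ι) (I : Finset (Fin (k + 1))) :
    Fintype.card (Ix B I) = k + 1 + Bᶜ.card * k + k * (k - 1) / 2 + I.card := by
  have : Fintype.card {p : Fin k × Fin k // p.1 < p.2} = k * (k - 1) / 2 := by
    rw [Fintype.card_subtype, ← univ_product_univ, card_product_filter_lt, card_univ,
      Fintype.card_fin, Nat.choose_two_right]
  simp only [Fintype.card_sum, Fintype.card_prod, Fintype.card_fin, Fintype.card_coe, this]
  ring

variable (S : Matrix ι ι F2) (e : ι → F2) (B P : Finset ι) (o : F2) (I : Finset (Fin (k + 1)))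
  (a : V k) (ℓ : Fin (k + 1) → (Fin (k + 1) → ι → F2) →+ F2)

/-- the conditions -/
def qq : Ix B I → (ι → V k) → F2
  | .inl j, x => dot univ e (sw x j)
  | .inr (.inl p), x => vv S P o (sw x) p.1 p.2
  | .inr (.inr (.inl p)), x => dot B (sw x p.1.1.castSucc) (vv S P o (sw x) p.1.2) +
      dot B (sw x p.1.2.castSucc) (vv S P o (sw x) p.1.1)
  | .inr (.inr (.inr i)), x => dot B (sw x i) (pt P o (∑ j, a j • sw x j)) + ℓ i (sw x)

/-- their polar forms -/
def pp (ε : F2) : Ix B I → V k →+ V k →+ F2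
  | .inl _ => 0
  | .inr (.inl _) => 0
  | .inr (.inr (.inl p)) => mon p.1.1.castSucc p.1.2.succ + mon p.1.2.castSucc p.1.1.succ +
      ε • mon p.1.1.castSucc p.1.2.castSucc
  | .inr (.inr (.inr i)) => ∑ j, a j • mon i j + 0

theorem vv_add (x x' : ι → V k) (j : Fin k) (l : ι) :
    vv S P o (sw (x + x')) j l = vv S P o (sw x) j l + vv S P o (sw x') j l := by
  simp only [vv, sw_add, Pi.add_apply, pt_add, mulVec_add, Pi.sub_apply]
  ring

theorem pol_qq {J : Finset ι} {ε : F2} (hB : J ⊆ B) (hP : J ⊆ P) (hs : Sym i2 i2 S e B)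
    (he : ∀ l ∈ J, e l = ε) (t : Ix B I) : Pol J (qq S e B P o I a ℓ t) (pp B I a ε t) := by
  rcases t with j | p | p | i
  · exact Pol.lin fun x x' => dot_addr _ _ _ _
  · exact Pol.lin fun x x' => vv_add S P o x x' _ _
  · convert ((pol_pt hB hP o p.1.1.castSucc p.1.2.succ).add
      (pol_pt hB hP o p.1.2.castSucc p.1.1.succ)).add
        (pol_S hB hs he p.1.1.castSucc p.1.2.castSucc) using 2
    · simp only [qq, vv, dot_subr]
      ring
    · rfl
  · convert (Pol.sum univ fun j _ => (pol_pt hB hP o i j).smul (a j)).add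
      (Pol.lin (Q := fun x => ℓ i (sw x)) fun x x' => map_add _ _ _) using 2
    · simp only [qq, dot_pt_sum]
    · rfl

variable {B I a}

omit [Fintype ι] in
theorem single_cs (i j : Fin k) :
    (Pi.single i.castSucc 1 : V k) j.castSucc = if j = i then 1 else 0 := by
  simp [Pi.single_apply]

theorem quad_zero {μ : Ix B I → F2} {i0 : Fin (k + 1)} (h0 : i0 ∉ I) (ha : a i0 = 1)
    (h : ∀ ε, ∑ t, μ t • pp B I a ε t = 0) : (∀ p, μ (.inr (.inr (.inl p))) = 0) ∧
      ∀ i, μ (.inr (.inr (.inr i))) = 0 := by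
  have h1 : ∀ p, μ (.inr (.inr (.inl p))) = 0 := by
    intro p
    have e := congrArg (fun π : V k →+ V k →+ F2 =>
      π (Pi.single p.1.1.castSucc 1) (Pi.single p.1.2.castSucc 1)) ((h 1).trans (h 0).symm)
    simp only [Fintype.sum_sum_type, pp, smul_add, sum_add_distrib, zero_smul, one_smul,
      smul_zero, sum_const_zero, add_zero, zero_add, AddMonoidHom.add_apply, add_left_inj,
      add_eq_left, AddMonoidHom.finsetSum_apply, AddMonoidHom.smul_apply, mon_apply, single_cs,
      smul_eq_mul] at e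
    refine Eq.trans ?_ e
    rw [sum_eq_single p]
    · simp [p.2.ne]
    · intro p' _ hp
      have c : ¬(p'.1.2 = p.1.1 ∧ p'.1.1 = p.1.2) := fun c =>
        absurd (c.2 ▸ c.1 ▸ p'.2) (not_lt.2 p.2.le)
      have c' : ¬(p'.1.1 = p.1.1 ∧ p'.1.2 = p.1.2) := fun c => hp (Subtype.ext (Prod.ext c.1 c.2))
      rcases not_and_or.1 c with c | c <;> rcases not_and_or.1 c' with c' | c' <;> simp [c, c']
    · simp
  refine ⟨h1, fun i => ?_⟩
  have e := congrArg (fun π : V k →+ V k →+ F2 => π (Pi.single i 1) (Pi.single i0 1)) (h 0)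
  simp only [Fintype.sum_sum_type, pp, h1, zero_smul, smul_zero, sum_const_zero, add_zero,
    zero_add, AddMonoidHom.finsetSum_apply, AddMonoidHom.smul_apply, mon_apply, smul_eq_mul,
    AddMonoidHom.zero_apply] at e
  refine Eq.trans ?_ e
  rw [sum_eq_single i]
  · have : i.1 ≠ i0 := fun c => h0 (c ▸ i.2)
    simp [Pi.single_apply, this, ha]
  · intro i' _ hi
    have c1 : i'.1 ≠ i0 := fun c => h0 (c ▸ i'.2)
    have c2 : i'.1 ≠ i.1 := fun c => hi (Subtype.ext c)
    simp [Pi.single_apply, c1, c2]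
  · simp

theorem lin_zero {J : Finset ι} {m z : ℕ} (ok : Ok i2 i2 S e B P J false m z) {μ : Ix B I → F2}
    (h : ∀ x : ι → V k, (∀ l ∈ P, x l = 0) → ∑ j, μ (.inl j) * dot univ e (sw x j) +
      ∑ p, μ (.inr (.inl p)) * vv S P o (sw x) p.1 p.2 = 0) :
    (∀ j, μ (.inl j) = 0) ∧ ∀ p, μ (.inr (.inl p)) = 0 := by
  have key : ∀ (j : Fin (k + 1)) (l' : ι), l' ∉ P → μ (.inl j) * e l' +
      ∑ p : Fin k × {l // l ∈ Bᶜ}, (if p.1.castSucc = j then μ (.inr (.inl p)) * S p.2 l' else 0)
        = 0 := by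
    intro j l' hl'
    have h1 : ∀ i, sw (Pi.single l' (Pi.single j 1) : ι → V k) i =
        if i = j then Pi.single l' 1 else 0 := by
      intro i
      funext l
      by_cases c : l = l' <;> by_cases c' : i = j <;> simp [sw, c, c']
    have h2 : ∀ i, pt P o (sw (Pi.single l' (Pi.single j 1) : ι → V k) i) = 0 := by
      intro i
      have : ∀ l ∈ P, sw (Pi.single l' (Pi.single j 1) : ι → V k) i l = 0 := fun l hl => by
        have : l ≠ l' := fun c => hl' (c ▸ hl)
        simp [sw, this]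
      funext l
      simp only [pt, sum_eq_zero this, mul_zero, add_zero, Pi.zero_apply]
      split_ifs with c
      exacts [this l c, rfl]
    have := h (Pi.single l' (Pi.single j 1)) fun l hl => by
      have : l ≠ l' := fun c => hl' (c ▸ hl)
      simp [this]
    simp only [vv, h2, zero_sub, Pi.neg_apply, CharTwo.neg_eq] at this
    simp only [h1] at this
    refine Eq.trans ?_ this
    congr 1
    · rw [sum_eq_single j (fun i _ hi => by simp [hi, dot]) (by simp)]
      simp [dot, Pi.single_apply]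
    · exact sum_congr rfl fun p _ => by split_ifs <;> simp
  have k2 : ∀ j : Fin k, μ (.inl j.castSucc) = 0 ∧ ∀ l, μ (.inr (.inl (j, l))) = 0 := by
    intro j
    obtain ⟨r1, r2⟩ := ok.row (fun l => if h : l ∈ Bᶜ then μ (.inr (.inl (j, ⟨l, h⟩))) else 0)
      (μ (.inl j.castSucc)) (fun l hl => dif_neg (by simpa using hl)) fun l' _ hl' => by
        refine Eq.trans ?_ (key j.castSucc l' hl')
        rw [add_comm, Fintype.sum_prod_type, sum_eq_single j]
        · congr 1
          simp only [RingHom.id_apply, if_true]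
          rw [← sum_subset (subset_univ Bᶜ) fun l _ hl => by rw [dif_neg hl, zero_mul],
            ← sum_coe_sort]
          exact sum_congr rfl fun l _ => by rw [dif_pos l.2]
        · intro i _ hi
          simp [hi]
        · simp
    exact ⟨r2, fun l => by simpa [l.2] using congrFun r1 l⟩
  refine ⟨fun j => ?_, fun p => (k2 p.1).2 p.2⟩
  refine (ok.row 0 (μ (.inl j)) (fun _ _ => rfl) fun l' _ hl' => ?_).2
  have := key j l' hl'
  simpa [(k2 _).2] using this

end CH

open CH in
theorem rowCH : OfCH := by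
  intro hq ι _ _ S e B P J o m z k I a i0 ℓ ok hm h0 ha
  set c := k + 1 + Bᶜ.card * k + k * (k - 1) / 2 + I.card with hc
  let Q : (Ix B I → F2) →+ (ι → V k) → F2 :=
    AddMonoidHom.mk' (fun μ x => ∑ t, μ t * qq S e B P o I a ℓ t x) fun μ μ' => by
      funext x
      simp only [Pi.add_apply, add_mul, sum_add_distrib]
  have hV : Nat.card (V k) = 2 ^ (k + 1) := by simp
  have hA : Nat.card (ι → V k) = 2 ^ ((k + 1) * Fintype.card ι) := by
    rw [Nat.card_fun, hV, pow_mul, Nat.card_eq_fintype_card]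
  have hC : Nat.card (Ix B I → F2) = 2 ^ c := by
    rw [Nat.card_fun, Nat.card_zmod, Nat.card_eq_fintype_card, card_Ix]
  have hcm : k + 1 + 2 * c ≤ m := by
    have h1 : I.card ≤ k + 1 := by simpa using card_le_univ I
    have h2 : Bᶜ.card * k ≤ z * k := Nat.mul_le_mul_right _ ok.sml
    have h3 : k * (k - 1) / 2 ≤ k * k :=
      (Nat.div_le_self _ _).trans (Nat.mul_le_mul_left _ (Nat.sub_le _ _))
    nlinarith
  have key := hq.qc (ι → V k) (Ix B I → F2) Q (1 / 2 ^ c) (by positivity) fun μ hμ => by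
    by_cases hπ : ∃ ε, ∑ t, μ t • pp B I a ε t ≠ 0
    · obtain ⟨ε, hε⟩ := hπ
      have hp : Pol (J.filter fun l => i2 (e l) = ε) (Q μ) (∑ t, μ t • pp B I a ε t) :=
        Pol.sum univ fun t _ => (pol_qq S e B P o I a ℓ ((filter_subset _ _).trans ok.sub)
          (fun l hl => (ok.typ l (mem_filter.1 hl).1).2 rfl) ok.sym
          (fun l hl => (mem_filter.1 hl).2) t).smul (μ t)
      refine abs_le_of_sq_le_sq ((hp.bd hq hε).trans ?_) (by positivity)
      have h1 : (2 : ℝ) ^ (k + 1 + 2 * c) ≤ 2 ^ (J.filter fun l => i2 (e l) = ε).card :=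
        pow_le_pow_right₀ one_le_two (hcm.trans (ok.cnt ε))
      rw [hV]
      refine (div_le_div_of_nonneg_left (by positivity) (by positivity) h1).trans (le_of_eq ?_)
      push_cast
      field_simp
      ring
    · push Not at hπ
      obtain ⟨z1, z2⟩ := quad_zero h0 ha hπ
      have hQ : ∀ x, Q μ x = ∑ j, μ (.inl j) * dot univ e (sw x j) +
          ∑ p, μ (.inr (.inl p)) * vv S P o (sw x) p.1 p.2 := fun x => by
        change ∑ t, μ t * qq S e B P o I a ℓ t x = _
        simp only [Fintype.sum_sum_type, z1, z2, zero_mul, sum_const_zero, add_zero, qq]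
      obtain ⟨v, hv⟩ : ∃ v, Q μ v ≠ 0 := by
        by_contra hn
        push Not at hn
        obtain ⟨z3, z4⟩ := lin_zero S e P o ok (μ := μ) fun x _ => by rw [← hQ, hn]
        exact hμ (funext fun t => by rcases t with j | p | p | i <;> simp [z1, z2, z3, z4])
      have hv1 : ∀ t : F2, t ≠ 0 → t = 1 := by decide
      rw [hq.lin (ι → V k) (Q μ) v fun x => by
        rw [← hv1 _ hv]
        simp only [hQ, vv_add]
        simp only [sw_add, Pi.add_apply, dot_addr, mul_add, sum_add_distrib]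
        ring, abs_zero]
      positivity
  have hle : Nat.card {y : Fin (k + 1) → ι → F2 // Cn S e B P o y ∧
      ∀ i ∈ I, dot B (y i) (pt P o (∑ j, a j • y j)) = ℓ i y} ≤
      Nat.card {x // ∀ μ, Q μ x = 0} := by
    refine Nat.card_le_card_of_injective (fun y => ⟨fun l j => y.1 j l, fun μ => ?_⟩)
      fun y y' h => Subtype.ext (funext fun j => funext fun l =>
        congrFun (congrFun (congrArg Subtype.val h) l) j)
    obtain ⟨y, ⟨c1, c2, c3⟩, c4⟩ := y
    refine sum_eq_zero fun t _ => mul_eq_zero_of_right _ ?_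
    rcases t with j | p | p | i
    · exact c1 j
    · exact c2 p.1 p.2 (mem_compl.1 p.2.2)
    · exact (congrArg (· + _) (c3 p.1.1 p.1.2)).trans (CharTwo.add_self_eq_zero _)
    · exact (congrArg (· + _) (c4 i i.2)).trans (CharTwo.add_self_eq_zero _)
  rw [hA, hC] at key
  refine (Nat.mul_le_mul_right _ hle).trans ?_
  have k2 := (abs_le.1 key).2
  push_cast at k2
  have k3 : (Nat.card {x // ∀ μ, Q μ x = 0} : ℝ) * 2 ^ c ≤ 2 * 2 ^ ((k + 1) * Fintype.card ι) := by
    rw [← le_div_iff₀ (by positivity)]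
    refine (sub_le_iff_le_add.1 k2).trans (le_of_eq ?_)
    ring
  exact_mod_cast k3

end Pool.Agent.MP_1246c0_nt.H12
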