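import Pool.Agent.MP_1246c0_nt.H25.SpecN
import Pool.Agent.MP_1246c0_nt.H12.FIN

/-! Events that are rare for random matrices are rare. -/

namespace Pool.Agent.MP_1246c0_nt.H25

open Finset Matrix Filter Function Pool.Agent.MP_db5b97_nt.H85
open Pool.Agent.MP_1246c0_nt.H12

namespace GEQ

theorem ind0 (p : Prop) : 0 ≤ ind p := by unfold ind; split_ifs <;> norm_num

theorem ind1 (p : Prop) : ind p ≤ 1 := by unfold ind; split_ifs <;> norm_num

theorem ind_le {p q : Prop} (h : p → q) : ind p ≤ ind q := by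
  by_cases c : p
  · exact (ind1 p).trans (if_pos (h c)).ge
  · exact (if_neg c).trans_le (ind0 q)

section Cg

variable {ι Λ : Type} [CommRing Λ] {g : Λ} {n : ℕ} {lv : ι → ℕ} {M M' M'' : Matrix ι ι Λ}

theorem cg_refl : Cg g n lv M M := fun i j => by simp

theorem cg_symm (h : Cg g n lv M M') : Cg g n lv M' M := fun i j => by
  have := (h i j).neg_right
  rwa [neg_sub] at this

theorem cg_trans (h : Cg g n lv M M') (h' : Cg g n lv M' M'') : Cg g n lv M M'' := fun i j => by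
  have := (h' i j).add (h i j)
  rwa [sub_add_sub_cancel] at this

end Cg

theorem dl_C {C C' N Y T : ℕ} (h : C ≤ C') : dl C N Y T ≤ dl C' N Y T := by
  unfold dl
  have h2 : (2 : ℝ) ^ (C * N ^ 5) ≤ 2 ^ (C' * N ^ 5) :=
    pow_le_pow_right₀ (by norm_num) (Nat.mul_le_mul_right _ h)
  exact div_le_div_of_nonneg_right (mul_le_mul_of_nonneg_right h2 (by positivity)) (by positivity)

theorem mem_Sm {X : ℕ} {Sg : Finset ℕ} (h : Sg ∈ Sm X) :
    (∀ l ∈ Sg, l.Prime ∧ l ≠ 2 ∧ l ≤ YY X) ∧ Sg.card ≤ m0 X := by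
  obtain ⟨h1, h2⟩ := mem_filter.1 h
  refine ⟨fun l hl => ?_, h2⟩
  obtain ⟨h3, h4⟩ := mem_filter.1 (mem_powerset.1 h1 hl)
  exact ⟨h4.1, h4.2, Nat.lt_succ_iff.1 (mem_range.1 h3)⟩

theorem wtB {X : ℕ} {Sg : Finset ℕ} (h : Sg ∈ Sm X) : Wt Sg (YY X) (wB X) := fun p => by
  unfold wB
  split_ifs with c
  · exact ⟨zero_le_one, le_rfl, fun _ => ⟨⟨c.1, c.2.1, Nat.zero_le _⟩, c.2.2,
      fun hp => (((mem_Sm h).1 p hp).2.2).not_gt c.2.2⟩⟩
  · exact ⟨le_rfl, zero_le_one, fun e => (e rfl).elim⟩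

theorem wtF {X : ℕ} {Sg : Finset ℕ} (h : Sg ∈ Sm X) : Wt Sg (YY X) (wF X) := fun p => by
  unfold wF
  split_ifs with c
  · exact ⟨zero_le_one, le_rfl, fun _ => ⟨⟨c.1, by omega, Nat.zero_le _⟩, c.2.2,
      fun hp => (((mem_Sm h).1 p hp).2.2).not_gt c.2.2⟩⟩
  · exact ⟨le_rfl, zero_le_one, fun e => (e rfl).elim⟩

theorem n5_pos {m : ℕ} (p : Fin m → ℕ) : (1 : ℝ) ≤ n5 p := by
  unfold n5
  exact_mod_cast Nat.le_add_right _ _

/-- the event that is invariant -/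
def Ev (S : Sy) (π : Pa) (X n : ℕ) {Λ : Type} [CommRing Λ] (au : Λ →+* F2) (g : Λ)
    {Sg : Finset ℕ} {m : ℕ} (i1 : Sg)
    (Bad : (Fin m → ℕ) → Matrix (Sg ⊕ Fin m) (Sg ⊕ Fin m) Λ → Prop) (p : Fin m → ℕ)
    (M : Matrix (Sg ⊕ Fin m) (Sg ⊕ Fin m) Λ) : Prop :=
  NXm S π X (BB Sg m) (.inl i1) (prs Sg p) (M.map au) ∧
    ∀ M', Cg g n (fun i => lev (prs Sg p i)) M M' →
      (∀ i j, ¬(i ∈ BB Sg m ∧ j ∈ BB Sg m) → M' i j = M i j) → Bad p M'

section Ev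

variable {S : Sy} {π : Pa} {X n : ℕ} {Λ : Type} [CommRing Λ] {au : Λ →+* F2} {g : Λ}
  {Sg : Finset ℕ} {m : ℕ} {i1 : Sg}
  {Bad : (Fin m → ℕ) → Matrix (Sg ⊕ Fin m) (Sg ⊕ Fin m) Λ → Prop} {p p' : Fin m → ℕ}
  {M M' : Matrix (Sg ⊕ Fin m) (Sg ⊕ Fin m) Λ}

theorem ev_M (hN : SNIC) (h : Cg g n (fun i => lev (prs Sg p i)) M M')
    (h' : ∀ i j, ¬(i ∈ BB Sg m ∧ j ∈ BB Sg m) → M' i j = M i j)
    (e : Ev S π X n au g i1 Bad p M) : Ev S π X n au g i1 Bad p M' :=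
  ⟨hN.inv _ S π X _ _ _ _ _ _ (fun _ => ⟨rfl, rfl, Iff.rfl, Iff.rfl, Iff.rfl⟩)
      (fun i j c => by rw [map_apply, map_apply, h' i j c]) e.1,
    fun M'' c c' => e.2 M'' (cg_trans h c) fun i j d => (c' i j d).trans (h' i j d)⟩

theorem ev_p (hN : SNIC) (hB : ∀ M, Bad p M → Bad p' M)
    (h : ∀ i, lev (p i) = lev (p' i) ∧ eps (p i) = eps (p' i) ∧
      (T1 X π.n (p i) ↔ T1 X π.n (p' i)) ∧ (T2 X π.n (p i) ↔ T2 X π.n (p' i)) ∧
      (Dj π.j ((S.D π.nT).cc (p i)) ↔ Dj π.j ((S.D π.nT).cc (p' i))))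
    (e : Ev S π X n au g i1 Bad p M) : Ev S π X n au g i1 Bad p' M := by
  have h1 : (fun i => lev (prs Sg p i)) = fun i => lev (prs Sg p' i) := funext fun i => by
    rcases i with i | i
    · rfl
    · exact (h i).1
  refine ⟨hN.inv _ S π X _ _ _ _ _ _ (fun i => ?_) (fun _ _ _ => rfl) e.1,
    fun M'' c c' => hB _ (e.2 M'' (h1 ▸ c) c')⟩
  rcases i with i | i
  · exact ⟨rfl, rfl, Iff.rfl, Iff.rfl, Iff.rfl⟩
  · exact h i

end Ev

theorem num {r δ c L N C : ℝ} {k k' : ℕ} (hr : 30 ≤ r) (hδ : 0 ≤ δ) (hN : 1 ≤ N) (hC : 30 ≤ C)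
    (h1 : δ * Real.exp (C * N * r ^ 4) ≤ 1) (hc0 : 0 ≤ c) (hc : c ≤ Real.exp (r ^ 2))
    (hk : (k : ℝ) ≤ r ^ 2) (hL : L ≤ Real.exp (2 * r))
    (hL0 : 0 ≤ L) (hk' : k' ≤ k) :
    (32 * c) ^ (k' + 1) ≤ Real.exp (2 * r ^ 4) ∧
      3 * (δ * Real.exp (2 * r ^ 4) * Real.exp (20 * N * r ^ 4)) * L ≤ 1 / Real.exp r := by
  have r2 : 900 ≤ r ^ 2 := by nlinarith
  have r4 : r ^ 4 = r ^ 2 * r ^ 2 := by ring
  constructor
  · have e1 : (32 : ℝ) ≤ Real.exp 31 := by linarith [Real.add_one_le_exp 31]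
    have e2 : 32 * c ≤ Real.exp (31 + r ^ 2) := by
      rw [Real.exp_add]
      exact mul_le_mul e1 hc hc0 (Real.exp_pos _).le
    refine (pow_le_pow_left₀ (by positivity) e2 _).trans ?_
    rw [← Real.exp_nat_mul]
    apply Real.exp_le_exp.2
    have : (k' : ℝ) ≤ k := by exact_mod_cast hk'
    have e3 : ((k' + 1 : ℕ) : ℝ) ≤ r ^ 2 + 1 := by push_cast; linarith
    refine (mul_le_mul_of_nonneg_right e3 (by positivity)).trans ?_
    nlinarith
  · rw [le_div_iff₀ (Real.exp_pos _)]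
    refine le_trans ?_ h1
    have e1 : (3 : ℝ) ≤ Real.exp r := by linarith [Real.add_one_le_exp r]
    have e2 : r ≤ r ^ 4 := by nlinarith
    have e3 : r ^ 4 ≤ N * r ^ 4 := by nlinarith
    have e4 : 30 * (N * r ^ 4) ≤ C * (N * r ^ 4) :=
      mul_le_mul_of_nonneg_right hC (by positivity)
    calc 3 * (δ * Real.exp (2 * r ^ 4) * Real.exp (20 * N * r ^ 4)) * L * Real.exp r
        ≤ Real.exp r * (δ * Real.exp (2 * r ^ 4) * Real.exp (20 * N * r ^ 4)) * Real.exp (2 * r) *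
          Real.exp r := by gcongr
      _ = δ * Real.exp (r + 2 * r ^ 4 + 20 * N * r ^ 4 + 2 * r + r) := by
          simp only [Real.exp_add]; ring
      _ ≤ _ := by
          apply mul_le_mul_of_nonneg_left (Real.exp_le_exp.2 _) hδ
          nlinarith

end GEQ

open GEQ in
theorem rowGEQ : OfGEQ := by
  intro hA _ hB h2 hP h0 hN hE S π hS
  obtain ⟨C, hB⟩ := hB
  filter_upwards [hP (C + 30)] with X hX
  obtain ⟨x1, x2, -, -, -, -, -, -, -, -, -, -, -, x3, -, x4⟩ := hX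
  intro n Λ Ω _ _ _ st au g ω Bad ε hg hn hΩ hε hinv hex
  obtain ⟨y1, -, y2⟩ := x4 (2 ^ n) Nat.one_le_two_pow (by exact_mod_cast hn)
  have r30 : (30 : ℝ) ≤ ll X := by
    have : (0 : ℝ) ≤ C := Nat.cast_nonneg _
    push_cast at x1
    linarith
  have hm0 : (m0 X : ℝ) ≤ ll X ^ 2 := Nat.floor_le (by positivity)
  have hL0 : 0 ≤ Real.log X + 2 := by linarith [Real.log_natCast_nonneg X]
  have hδ := FIN.dl_nonneg (C + 30) (2 ^ n) (YY X) X
  have nm := fun k' hk' => num (k' := k') r30 hδ (by exact_mod_cast Nat.one_le_two_pow)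
    (by push_cast; linarith [(Nat.cast_nonneg C : (0 : ℝ) ≤ C)]) y1 (Nat.cast_nonneg _) hΩ hm0
    x3 hL0 hk'
  refine (h0.cmp X _ (fun _ _ _ _ _ => ε) (dl (C + 30) (2 ^ n) (YY X) X *
    Real.exp (2 * ll X ^ 4) * Real.exp (20 * (2 ^ n : ℕ) * ll X ^ 4)) (by positivity)
    fun Sg hSg m hm i1 hi => ?_).trans ?_
  swap
  · refine add_le_add (h0.tot X ε hε) ?_
    have := mul_le_mul_of_nonneg_left (nm 0 (Nat.zero_le _)).2 (Nat.cast_nonneg X : (0 : ℝ) ≤ X)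
    calc _ = _ := by ring
      _ ≤ _ := this
      _ = _ := by ring
  have e1 := hE S n Λ (Ω × F2 × Prop × Prop × Prop × Prop) st au g
    (fun q => (ω q, eps q, T1 X π.n q, T2 X π.n q, Dj π.j ((S.D π.nT).cc q), q % 8 = 5)) Sg m
    (X / ∏ l ∈ Sg, l) (YY X) (wB X) (wF X) (dl (C + 30) (2 ^ n) (YY X) X)
    (fun p M => 1 / (n5 p : ℝ) * ind (Ev S π X n au g i1 (Bad Sg m i1) p M)) hS hg
    (fun l hl => ⟨((mem_Sm hSg).1 l hl).1, ((mem_Sm hSg).1 l hl).2.1, Nat.zero_le _⟩)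
    (wtB hSg) (wtF hSg) hδ
    (fun n' hn' => FIN.bil_mono (hB n' _ (YY X) X (by omega)) (Nat.div_le_self _ _)
      ((FIN.dl_mono (by omega) Nat.one_le_two_pow
        (Nat.pow_le_pow_right (by norm_num) hn')).trans (dl_C (by omega))))
    (fun p M => by
      have a := n5_pos p
      have b := ind0 (Ev S π X n au g i1 (Bad Sg m i1) p M)
      rw [abs_of_nonneg (by positivity)]
      exact mul_le_one₀ (div_le_one_of_le₀ a (by positivity)) b (ind1 _))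
    (fun p p' h => by
      simp only [Prod.mk.injEq, eq_iff_iff] at h
      have a : n5 p = n5 p' := by
        unfold n5
        rw [filter_congr fun i _ => (h i).2.2.2.2.2.2.2.2]
      funext M
      rw [a]
      congr 2
      exact propext ⟨ev_p hN
          (fun M => hinv Sg m i1 p p' M fun i => ⟨(h i).2.2.1, (h i).2.2.2.2.1, (h i).2.2.2.1⟩)
          fun i => ⟨(h i).2.2.1, (h i).2.2.2.2.1, (h i).2.2.2.2.2.1, (h i).2.2.2.2.2.2.1,
            (h i).2.2.2.2.2.2.2.1⟩,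
        ev_p hN (fun M => hinv Sg m i1 p' p M fun i =>
            ⟨(h i).2.2.1.symm, (h i).2.2.2.2.1.symm, (h i).2.2.2.1.symm⟩)
          fun i => ⟨(h i).2.2.1.symm, (h i).2.2.2.2.1.symm, (h i).2.2.2.2.2.1.symm,
            (h i).2.2.2.2.2.2.1.symm, (h i).2.2.2.2.2.2.2.1.symm⟩⟩)
    (fun p M M' c c' => by
      congr 2
      exact propext ⟨ev_M hN (cg_symm c) fun i j d => (c' i j d).symm, ev_M hN c c'⟩)
  have e2 : TG X Sg m (fun p P => ind (Ev S π X n au g i1 (Bad Sg m i1) p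
        (MX S.D n g (prs Sg p) P)) - Ex (Hs st (BB Sg m) (BB Sg m))
        fun H => ind (Ev S π X n au g i1 (Bad Sg m i1) p (MX S.D n g (prs Sg p) P + H))) ≤
      dl (C + 30) (2 ^ n) (YY X) X * Real.exp (2 * ll X ^ 4) *
        Real.exp (20 * (2 ^ n : ℕ) * ll X ^ 4) * (X / ∏ l ∈ Sg, l : ℕ) := by
    refine le_trans (le_of_eq ?_) (((le_abs_self _).trans e1).trans ?_)
    · unfold TG
      congr 1
      funext p P
      rw [hA.mul]
      ring
    · have a := (nm m hm).1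
      have b := (FIN.EE_mono (N := 2 ^ n) (mem_Sm hSg).2 hm
        (Nat.div_le_self X (∏ l ∈ Sg, l))).trans y2
      have c : (Fintype.card (Ω × F2 × Prop × Prop × Prop × Prop) : ℝ) = 32 * Fintype.card Ω := by
        simp only [Fintype.card_prod, Fintype.card_prop, ZMod.card]
        push_cast
        ring
      have d := FIN.EE_nonneg (2 ^ n) Sg.card m (X / ∏ l ∈ Sg, l)
      rw [c]
      calc _ ≤ dl (C + 30) (2 ^ n) (YY X) X * (X / ∏ l ∈ Sg, l : ℕ) * Real.exp (2 * ll X ^ 4) *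
            Real.exp (20 * (2 ^ n : ℕ) * ll X ^ 4) := by gcongr
        _ = _ := by ring
  refine le_trans ?_ (add_le_add_right e2 _)
  rw [← h0.tadd]
  refine h0.tmono X Sg m i1 _ _ hSg hm hi fun p P v => ?_
  have a := (h2.aus _ Λ S.D st au g n (prs Sg p) P hg v.lb.odd).1
  have b : ind (NX S π X Sg m i1 p P ∧ ∀ M', Cg g n (fun i => lev (prs Sg p i))
      (MX S.D n g (prs Sg p) P) M' → Bad Sg m i1 p M') ≤
      ind (Ev S π X n au g i1 (Bad Sg m i1) p (MX S.D n g (prs Sg p) P)) :=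
    ind_le fun c => ⟨a ▸ c.1, fun M' d _ => c.2 M' d⟩
  have c : (Ex (Hs st (BB Sg m) (BB Sg m))
      fun H => ind (Ev S π X n au g i1 (Bad Sg m i1) p (MX S.D n g (prs Sg p) P + H))) ≤ ε := by
    by_cases d : NX S π X Sg m i1 p P
    · exact (hA.mono _ _ _ _ fun H _ => ind_le fun e => e.2 _ cg_refl fun _ _ _ => rfl).trans
        (hex Sg m i1 p P v d)
    · refine ((hA.mono _ _ _ (fun _ => 0) fun H hH => (if_neg fun e => d ?_).le).trans
        (hA.const _ _ 0).le).trans hε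
      refine hN.inv _ S π X _ _ _ _ _ _ (fun _ => ⟨rfl, rfl, Iff.rfl, Iff.rfl, Iff.rfl⟩)
        (fun i j f => ?_) e.1
      rw [← a, map_apply, map_apply, Matrix.add_apply, hH.2.2 i j fun k => f ⟨k.1, k.2.1⟩, add_zero]
  linarith

end Pool.Agent.MP_1246c0_nt.H25
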