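import Pool.Agent.MP_1246c0_nt.H25.SpecA

/-! Induction of a homomorphism to a cocycle. -/

namespace Pool.Agent.MP_1246c0_nt.H25

open NumberField IsDedekindDomain Finset Pool.Agent.MP_db5b97_nt.H85
open Pool.Agent.MP_1246c0_nt.H12

namespace IND

/-- the group of the layer -/
abbrev Xi (n : ℕ) : Type := F2 × ZMod (2 ^ n)

/-- the projection to the group of the layer -/
noncomputable def pp (d n : ℕ) (h : Ga) : Xi n := (chi d h, kap n h)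

theorem f2_cases (c : F2) : c = 0 ∨ c = 1 := by revert c; decide

theorem pp_mul (hz : Ax0) (d n : ℕ) (h h' : Ga) : pp d n (h * h') = pp d n h + pp d n h' :=
  Prod.ext (hz.cmul _ _ _) (hz.kmul _ _ _)

theorem pp_one (hz : Ax0) (d n : ℕ) : pp d n 1 = 0 := by
  have := pp_mul hz d n 1 1
  rw [mul_one] at this
  exact left_eq_add.1 this

theorem pp_inv (hz : Ax0) (d n : ℕ) (h : Ga) : pp d n h⁻¹ = -pp d n h := by
  have := pp_mul hz d n h⁻¹ h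
  rw [inv_mul_cancel, pp_one hz] at this
  exact eq_neg_of_add_eq_zero_left this.symm

theorem lev_five {P : ℕ} (h : P % 8 = 5) : lev P = 0 := by
  unfold lev
  by_contra hn
  have h4 : 4 ≤ padicValNat 2 (P ^ 2 - 1) := by omega
  have h5 : 2 ^ 4 ∣ P ^ 2 - 1 := (pow_dvd_pow 2 h4).trans pow_padicValNat_dvd
  obtain ⟨k, rfl⟩ : ∃ k, P = 8 * k + 5 := ⟨P / 8, by omega⟩
  have e : (8 * k + 5) ^ 2 = 16 * (4 * k ^ 2 + 5 * k + 1) + 9 := by ring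
  rw [e] at h5
  omega

theorem chi_sg {Φ : Frm} (hΦ : Ax1 Φ) {d P : ℕ} (hd : Squarefree d) (hP : P.Prime)
    (h5 : P % 8 = 5) (hPd : P ∣ d) : chi d (Φ.sg P) = 1 := by
  have : Fact P.Prime := ⟨hP⟩
  have hd0 : d ≠ 0 := hd.ne_zero
  rw [hΦ.v.csg P d ⟨hP, by omega, Nat.zero_le _⟩ (by exact_mod_cast hd0), padicValInt.of_nat]
  have h1 : padicValNat P d ≤ 1 := by
    rw [← Nat.factorization_def d hP]
    exact hd.natFactorization_le_one P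
  have h2 : 1 ≤ padicValNat P d := one_le_padicValNat_of_dvd hd0 hPd
  rw [le_antisymm h1 h2]
  simp

theorem kap_fr {Φ : Frm} (hΦ : Ax1 Φ) {P : ℕ} (hP : P.Prime) (h5 : P % 8 = 5) (n : ℕ) :
    ∃ o : ℕ, Odd o ∧ kap n (Φ.fr P) = o := by
  obtain ⟨o, h1, h2⟩ := hΦ.v.kfr n P ⟨hP, by omega, Nat.zero_le _⟩
  refine ⟨o, h1, ?_⟩
  rw [h2, lev_five h5]
  simp

theorem dc_fr (hL : SLIFT) (Φ : Frm) {P : ℕ} (hP : P.Prime) (h5 : P % 8 = 5) :
    Dc (Φ.Q P) (Φ.fr P) :=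
  (hL.grp _ (Φ.mx P hP).1).2.2.2.1 P _ hP.pos (Φ.ffr P ⟨hP, by omega, Nat.zero_le _⟩)

/-- the decomposition group at `P` surjects -/
theorem sect (hL : SLIFT) {Φ : Frm} (hΦ : Ax1 Φ) {d P : ℕ} (hd : Squarefree d) (hP : P.Prime)
    (h5 : P % 8 = 5) (hPd : P ∣ d) (n : ℕ) (ξ : Xi n) : ∃ g, Dc (Φ.Q P) g ∧ pp d n g = ξ := by
  obtain ⟨g1, -, g3, -, g5, -⟩ := hL.grp _ (Φ.mx P hP).1
  let W : AddSubgroup (Xi n) :=
    { carrier := {ξ | ∃ g, Dc (Φ.Q P) g ∧ pp d n g = ξ}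
      zero_mem' := ⟨1, g1, pp_one hΦ.z d n⟩
      add_mem' := by
        rintro _ _ ⟨g, hg, rfl⟩ ⟨g', hg', rfl⟩
        exact ⟨g * g', (g5 g g' hg hg').1, pp_mul hΦ.z d n g g'⟩
      neg_mem' := by
        rintro _ ⟨g, hg, rfl⟩
        exact ⟨g⁻¹, (g5 g g hg hg).2, pp_inv hΦ.z d n g⟩ }
  have a1 : ((1, 0) : Xi n) ∈ W :=
    ⟨Φ.sg P, g3 _ (Φ.isg P hP), Prod.ext (chi_sg hΦ hd hP h5 hPd) (hΦ.v.ksg n P hP)⟩
  have a2 : ∀ c : F2, ((c, 0) : Xi n) ∈ W := by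
    intro c
    rcases f2_cases c with rfl | rfl
    · exact W.zero_mem
    · exact a1
  obtain ⟨o, ho, hk⟩ := kap_fr hΦ hP h5 n
  have a3 : ((0, (o : ZMod (2 ^ n))) : Xi n) ∈ W := by
    have b1 : pp d n (Φ.fr P) ∈ W := ⟨Φ.fr P, dc_fr hL Φ hP h5, rfl⟩
    have b2 := W.sub_mem b1 (a2 (chi d (Φ.fr P)))
    have e : pp d n (Φ.fr P) - (chi d (Φ.fr P), 0) = (0, (o : ZMod (2 ^ n))) := by
      simp [pp, hk]
    rwa [e] at b2
  have hu : IsUnit (o : ZMod (2 ^ n)) := by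
    rw [ZMod.isUnit_iff_coprime]
    exact Nat.Coprime.pow_right n (Nat.coprime_two_right.2 ho)
  obtain ⟨v, hv⟩ := hu.exists_left_inv
  have a4 := W.add_mem (a2 ξ.1) (W.nsmul_mem a3 (ξ.2 * v).val)
  have e : ((ξ.1, 0) : Xi n) + (ξ.2 * v).val • ((0, (o : ZMod (2 ^ n))) : Xi n) = ξ := by
    refine Prod.ext (by simp) ?_
    change 0 + (ξ.2 * v).val • (o : ZMod (2 ^ n)) = ξ.2
    rw [zero_add, nsmul_eq_mul, ZMod.natCast_zmod_val, mul_assoc, hv, mul_one]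
  rw [e] at a4
  exact a4

/-- the induced cocycle -/
structure Dt (Φ : Frm) (d P n : ℕ) {A : Type} [AddCommGroup A] (S : Xi n → A →+ A)
    (Ψ : Ga → A) : Prop where
  s0 : ∀ x, S 0 x = x
  sadd : ∀ a b x, S (a + b) x = S a (S b x)
  coc : ∀ h h', Ψ (h * h') = Ψ h + S (pp d n h) (Ψ h')
  gen : ∀ W : AddSubgroup A, (∀ h, Ψ h ∈ W) → W = ⊤
  dP : ∀ h, Dc (Φ.Q P) h → Ψ h = 0
  unr : ∀ l, l.Prime → ∀ h, pp d n h = 0 → In (Φ.Q l) h → Ψ h = 0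
  two : ∀ h, pp d n h = 0 → Dc (Φ.Q 2) h → Ψ h = 0
  opn : ∃ U, Op U ∧ ∀ u ∈ U, Ψ u = 0

section Abs

variable {Φ : Frm} {d P n : ℕ} {A : Type} [AddCommGroup A] {S : Xi n → A →+ A} {Ψ : Ga → A}

theorem Dt.one (D : Dt Φ d P n S Ψ) (hz : Ax0) : Ψ 1 = 0 := by
  have := D.coc 1 1
  rw [mul_one, pp_one hz, D.s0] at this
  exact left_eq_add.1 this

theorem Dt.comm (D : Dt Φ d P n S Ψ) (a b : Xi n) (x : A) : S a (S b x) = S b (S a x) := by
  rw [← D.sadd, ← D.sadd, add_comm]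

theorem Dt.ss (D : Dt Φ d P n S Ψ) (x : A) : S (1, 0) (S (1, 0) x) = x := by
  have e : ((1, 0) : Xi n) + (1, 0) = 0 :=
    Prod.ext (show (1 : F2) + 1 = 0 by decide) (add_zero _)
  rw [← D.sadd, e, D.s0]

theorem Dt.dbl (D : Dt Φ d P n S Ψ) (hL : SLIFT) (hΦ : Ax1 Φ) (hP : P.Prime) (h5 : P % 8 = 5)
    (x : A) : 2 • (x + S (1, 0) x) = 0 := by
  let W : AddSubgroup A := (S (1, 0) - AddMonoidHom.id A).range
  have hW : ∀ a, ∀ y ∈ W, S a y ∈ W := by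
    rintro a _ ⟨y, rfl⟩
    refine ⟨S a y, ?_⟩
    simp only [AddMonoidHom.sub_apply, AddMonoidHom.id_apply, map_sub]
    rw [D.comm]
  let H' : Subgroup Ga :=
    { carrier := {h | 2 • Ψ h ∈ W}
      one_mem' := by
        change 2 • Ψ 1 ∈ W
        rw [D.one hΦ.z, smul_zero]
        exact W.zero_mem
      mul_mem' := by
        intro h h' a b
        change 2 • Ψ (h * h') ∈ W
        rw [D.coc, smul_add, ← map_nsmul]
        exact W.add_mem a (hW _ _ b)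
      inv_mem' := by
        intro h a
        change 2 • Ψ h⁻¹ ∈ W
        have e := D.coc h⁻¹ h
        rw [inv_mul_cancel, D.one hΦ.z] at e
        rw [eq_neg_of_add_eq_zero_left e.symm, smul_neg, ← map_nsmul]
        exact W.neg_mem (hW _ _ a) }
  obtain ⟨U, hU, hU'⟩ := D.opn
  have zero : ∀ h, Ψ h = 0 → h ∈ H' := by
    intro h e
    change 2 • Ψ h ∈ W
    rw [e, smul_zero]
    exact W.zero_mem
  have hH : H' = ⊤ := by
    refine hΦ.g U H' hU (fun u hu => zero u (hU' u hu)) (fun l hl => ?_) ?_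
    · rcases f2_cases (chi d (Φ.sg l)) with e | e
      · exact zero _ (D.unr l hl _ (Prod.ext e (hΦ.v.ksg n l hl)) (Φ.isg l hl))
      · have e1 : pp d n (Φ.sg l) = (1, 0) := Prod.ext e (hΦ.v.ksg n l hl)
        have e2 : pp d n (Φ.sg l * Φ.sg l) = 0 := by
          rw [pp_mul hΦ.z, e1]
          exact Prod.ext (show (1 : F2) + 1 = 0 by decide) (add_zero _)
        have e3 := D.unr l hl _ e2
          ((hL.grp _ (Φ.mx l hl).1).2.2.2.2.2.1 _ _ (Φ.isg l hl) (Φ.isg l hl)).1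
        rw [D.coc, e1] at e3
        change 2 • Ψ (Φ.sg l) ∈ W
        refine ⟨-Ψ (Φ.sg l), ?_⟩
        simp only [AddMonoidHom.sub_apply, AddMonoidHom.id_apply, map_neg]
        rw [eq_neg_of_add_eq_zero_right e3, two_nsmul]
        abel
    · refine ⟨Φ.fr P, zero _ (D.dP _ (dc_fr hL Φ hP h5)), ?_⟩
      obtain ⟨o, ⟨m, rfl⟩, hk⟩ := kap_fr hΦ hP h5 1
      rw [hk]
      push_cast
      have e : (2 : ZMod (2 ^ 1)) = 0 := by decide
      rw [e, zero_mul, zero_add]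
  have h2 := D.gen (W.comap (nsmulAddMonoidHom 2)) fun h => by
    have : h ∈ H' := hH ▸ Subgroup.mem_top h
    exact this
  have h3 : x ∈ W.comap (nsmulAddMonoidHom 2) := h2 ▸ AddSubgroup.mem_top x
  obtain ⟨y, hy⟩ := h3
  have hy' : S (1, 0) y - y = 2 • x := hy
  rw [smul_add, ← map_nsmul, ← hy', map_sub, D.ss]
  abel

variable {M : Type} [AddCommGroup M] {q : A →+ M} {T : Module.End ℤ M}

theorem Dt.pow (D : Dt Φ d P n S Ψ) (hT : ∀ x, T (q x) = q (S (0, 1) x)) (k : ℕ) (x : A) :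
    (T ^ k) (q x) = q (S (0, (k : ZMod (2 ^ n))) x) := by
  induction k with
  | zero =>
    have e : ((0, ((0 : ℕ) : ZMod (2 ^ n))) : Xi n) = 0 := by simp
    rw [e, D.s0, pow_zero, Module.End.one_apply]
  | succ k ih =>
    have e : ((0, ((k + 1 : ℕ) : ZMod (2 ^ n))) : Xi n) = (0, 1) + (0, (k : ZMod (2 ^ n))) := by
      simp [add_comm]
    rw [pow_succ', Module.End.mul_apply, ih, hT, e, D.sadd]

theorem Dt.acn (D : Dt Φ d P n S Ψ) (hT : ∀ x, T (q x) = q (S (0, 1) x))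
    (hs : ∀ x, q (S (1, 0) x) = -q x) (h : Ga) (x : A) :
    acn d n T h (q x) = q (S (pp d n h) x) := by
  unfold H25.acn
  rw [Module.End.mul_apply, D.pow hT, ZMod.natCast_zmod_val]
  rcases f2_cases (chi d h) with e | e
  · have e1 : pp d n h = (0, kap n h) := Prod.ext e rfl
    rw [e, e1, ZMod.val_zero, pow_zero, Module.End.one_apply]
  · have e1 : pp d n h = (1, 0) + (0, kap n h) := Prod.ext (by simp [pp, e]) (by simp [pp])
    have e2 : (1 : F2).val = 1 := rfl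
    rw [e, e1, e2, pow_one, D.sadd, hs, LinearMap.neg_apply, Module.End.one_apply]

theorem Dt.pair (D : Dt Φ d P n S Ψ) (hL : SLIFT) (hΦ : Ax1 Φ)
    (hT : ∀ x, T (q x) = q (S (0, 1) x)) (hs : ∀ x, q (S (1, 0) x) = -q x) {f s : Ga}
    (hf : Dc (Φ.Q 2) f) (hs' : Dc (Φ.Q 2) s) (e : pp d n s = (1, 0)) :
    Eo d n T (fun h => q (Ψ h)) (f, s) = 0 := by
  obtain ⟨-, -, -, -, g5, -⟩ := hL.grp _ (Φ.mx 2 Nat.prime_two).1
  have c1 : pp d n (f * s * f⁻¹ * s⁻¹) = 0 := by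
    rw [pp_mul hΦ.z, pp_mul hΦ.z, pp_mul hΦ.z, pp_inv hΦ.z, pp_inv hΦ.z]
    abel
  have c2 : Dc (Φ.Q 2) (f * s * f⁻¹ * s⁻¹) :=
    (g5 _ _ (g5 _ _ (g5 _ _ hf hs').1 (g5 _ _ hf hf).2).1 (g5 _ _ hs' hs').2).1
  have c3 := D.coc (f * s * f⁻¹ * s⁻¹) (s * f)
  have c4 : f * s * f⁻¹ * s⁻¹ * (s * f) = f * s := by group
  rw [c4, D.two _ c1 c2, c1, D.s0, zero_add, D.coc, D.coc, e] at c3
  have c5 := congrArg q c3
  rw [map_add, map_add, hs, ← D.acn hT hs] at c5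
  unfold Eo
  simp only
  rw [two_nsmul, eq_sub_of_add_eq' c5]
  abel

theorem Dt.sing (D : Dt Φ d P n S Ψ) (hΦ : Ax1 Φ) {f : Ga} (hf : Dc (Φ.Q 2) f)
    (e : pp d n f = 0) : Eo d n T (fun h => q (Ψ h)) (f, 1) = 0 := by
  unfold Eo
  simp only
  rw [D.two f e hf, D.one hΦ.z]
  simp

theorem Dt.cc (D : Dt Φ d P n S Ψ) (hL : SLIFT) (hΦ : Ax1 Φ) (hd : Odd d) (hP : P.Prime)
    (h5 : P % 8 = 5) (hT : ∀ x, T (q x) = q (S (0, 1) x)) (hs : ∀ x, q (S (1, 0) x) = -q x) :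
    Cc Φ d P n T ⊥ fun h => q (Ψ h) := by
  obtain ⟨-, -, g3, g4, g5, -⟩ := hL.grp _ (Φ.mx 2 Nat.prime_two).1
  have d1 : Dc (Φ.Q 2) (Φ.fr 2) := g3 _ Φ.ifr
  have d2 : Dc (Φ.Q 2) (Φ.sg 2) := g3 _ (Φ.isg 2 Nat.prime_two)
  have d3 : Dc (Φ.Q 2) Φ.f2 := g4 2 _ (by norm_num) Φ.ff2
  obtain ⟨v1, -, v3⟩ := hΦ.v.codd d hd
  refine ⟨fun h h' => ?_, ?_, fun l hl hc => ?_, ?_, fun h4 => ?_, ?_⟩
  · rw [AddSubgroup.mem_bot, D.coc, map_add, D.acn hT hs]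
    abel
  · obtain ⟨U, hU, hU'⟩ := D.opn
    refine ⟨U, hU, fun h u hu => ?_⟩
    beta_reduce
    rw [AddSubgroup.mem_bot, D.coc, hU' u hu, map_zero, add_zero, sub_self]
  · rw [AddSubgroup.mem_bot]
    rcases hc with e | rfl
    · rw [D.unr l hl _ (Prod.ext e (hΦ.v.ksg n l hl)) (Φ.isg l hl), map_zero]
    · rw [D.dP _ ((hL.grp _ (Φ.mx l hl).1).2.2.1 _ (Φ.isg l hl)), map_zero]
  · rw [AddSubgroup.mem_bot, D.dP _ (dc_fr hL Φ hP h5), map_zero]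
  · rw [AddSubgroup.mem_bot]
    refine D.pair hL hΦ hT hs d1 d2 (Prod.ext ?_ (hΦ.v.ksg n 2 Nat.prime_two))
    change chi d (Φ.sg 2) = 1
    rw [v1, eps, if_pos h4]
  · rw [AddSubgroup.mem_bot]
    unfold p4
    split_ifs with c1 c2
    · refine D.pair hL hΦ hT hs d1 d3 (Prod.ext ?_ (hΦ.v.kf2 n))
      change chi d Φ.f2 = 1
      rw [v3, if_pos (Or.inr c1)]
    · refine D.sing hΦ (g5 _ _ d3 d2).1 (Prod.ext ?_ ?_)
      · change chi d (Φ.f2 * Φ.sg 2) = 0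
        rw [hΦ.z.cmul, v3, v1, if_pos (Or.inl c2), eps, if_pos (by omega)]
        decide
      · change kap n (Φ.f2 * Φ.sg 2) = 0
        rw [hΦ.z.kmul, hΦ.v.kf2, hΦ.v.ksg n 2 Nat.prime_two, add_zero]
    · refine D.sing hΦ d3 (Prod.ext ?_ (hΦ.v.kf2 n))
      change chi d Φ.f2 = 0
      rw [v3, if_neg (by omega)]

theorem Dt.main [Finite A] (D : Dt Φ d P n S Ψ) (hL : SLIFT) (hΦ : Ax1 Φ) (hd : Odd d)
    (hP : P.Prime) (h5 : P % 8 = 5) (tor : ∀ y : A, ∃ k : ℕ, 2 ^ k • y = 0) :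
    ∃ (M : Type) (_ : AddCommGroup M) (_ : Finite M) (T : Module.End ℤ M) (ψ' : Ga → M),
      T ^ 2 ^ n = 1 ∧ (∀ y : M, ∃ k : ℕ, 2 ^ k • y = 0) ∧ Cc Φ d P n T ⊥ ψ' ∧
      AddSubgroup.closure (Set.range ψ') = ⊤ ∧
      (∀ j : ℕ, (∀ y : M, 2 ^ j • y = 0) → ∀ x : A, 2 ^ (j + 1) • x = 0) ∧
      ((∀ b : A, 2 • b = 0) → (∀ y : M, 2 • y = 0) ∧ Nat.card A ≤ Nat.card M ^ 2) := by
  let φ : A →+ A := AddMonoidHom.id A + S (1, 0)
  have hφ : ∀ x, φ x = x + S (1, 0) x := fun x => rfl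
  have hN : φ.range ≤ φ.range.comap (S (0, 1)) := by
    rintro _ ⟨y, rfl⟩
    refine ⟨S (0, 1) y, ?_⟩
    rw [hφ, hφ, map_add, D.comm]
  let q : A →+ A ⧸ φ.range := QuotientAddGroup.mk' φ.range
  have hq : Function.Surjective q := QuotientAddGroup.mk'_surjective _
  have hq0 : ∀ x, q x = 0 ↔ x ∈ φ.range := fun x => QuotientAddGroup.eq_zero_iff x
  let T : Module.End ℤ (A ⧸ φ.range) :=
    (QuotientAddGroup.map φ.range φ.range (S (0, 1)) hN).toIntLinearMap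
  have hT : ∀ x, T (q x) = q (S (0, 1) x) := fun x => rfl
  have hs : ∀ x, q (S (1, 0) x) = -q x := by
    intro x
    rw [eq_neg_iff_add_eq_zero, ← map_add, hq0, add_comm]
    exact ⟨x, rfl⟩
  refine ⟨A ⧸ φ.range, inferInstance, inferInstance, T, fun h => q (Ψ h), ?_, fun y => ?_,
    D.cc hL hΦ hd hP h5 hT hs, ?_, fun j hj x => ?_, fun h2 => ⟨fun y => ?_, ?_⟩⟩
  · refine LinearMap.ext fun y => ?_
    obtain ⟨x, rfl⟩ := hq y
    have e : ((0, ((2 ^ n : ℕ) : ZMod (2 ^ n))) : Xi n) = 0 :=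
      Prod.ext rfl (ZMod.natCast_self _)
    rw [D.pow hT, e, D.s0, Module.End.one_apply]
  · obtain ⟨x, rfl⟩ := hq y
    obtain ⟨k, hk⟩ := tor x
    exact ⟨k, by rw [← map_nsmul, hk, map_zero]⟩
  · have h1 := D.gen ((AddSubgroup.closure (Set.range fun h => q (Ψ h))).comap q) fun h =>
      AddSubgroup.subset_closure ⟨h, rfl⟩
    rw [eq_top_iff]
    intro y _
    obtain ⟨x, rfl⟩ := hq y
    have : x ∈ (AddSubgroup.closure (Set.range fun h => q (Ψ h))).comap q :=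
      h1 ▸ AddSubgroup.mem_top x
    exact this
  · have h1 := hj (q x)
    rw [← map_nsmul, hq0] at h1
    obtain ⟨y, hy⟩ := h1
    rw [pow_succ', mul_smul, ← hy, hφ]
    exact D.dbl hL hΦ hP h5 y
  · obtain ⟨x, rfl⟩ := hq y
    rw [← map_nsmul, h2, map_zero]
  · rw [AddSubgroup.card_eq_card_quotient_mul_card_addSubgroup φ.range, sq]
    refine Nat.mul_le_mul_left _ ?_
    have hk : ∀ x ∈ φ.range, φ.rangeRestrict x = 0 := by
      rintro _ ⟨y, rfl⟩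
      refine Subtype.ext ?_
      change φ (φ y) = 0
      rw [hφ, hφ, map_add, D.ss, add_comm (S (1, 0) y) y, ← two_nsmul, h2]
    refine Nat.card_le_card_of_surjective (QuotientAddGroup.lift φ.range φ.rangeRestrict hk) ?_
    rintro ⟨_, y, rfl⟩
    exact ⟨q y, rfl⟩

end Abs

section Conc

variable {B : Type} [AddCommGroup B] {n : ℕ}

/-- translation of functions -/
def sh (B : Type) [AddCommGroup B] {n : ℕ} (a : Xi n) : (Xi n → B) →+ Xi n → B where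
  toFun f ξ := f (ξ - a)
  map_zero' := rfl
  map_add' _ _ := rfl

/-- the induced function -/
noncomputable def ps (d : ℕ) (s : Xi n → Ga) (ψ : Ga → B) (h : Ga) (ξ : Xi n) : B :=
  ψ ((s ξ)⁻¹ * h * s (ξ - pp d n h))

theorem pp_arg (hz : Ax0) {d : ℕ} {s : Xi n → Ga} (hs : ∀ ξ, pp d n (s ξ) = ξ) (h : Ga)
    (ξ : Xi n) : pp d n ((s ξ)⁻¹ * h * s (ξ - pp d n h)) = 0 := by
  rw [pp_mul hz, pp_mul hz, pp_inv hz, hs, hs]
  abel

theorem ps_mul (hz : Ax0) {d : ℕ} {s : Xi n → Ga} (hs : ∀ ξ, pp d n (s ξ) = ξ) {ψ : Ga → B}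
    (hψ : ∀ h h', pp d n h = 0 → pp d n h' = 0 → ψ (h * h') = ψ h + ψ h') (h h' : Ga) :
    ps d s ψ (h * h') = ps d s ψ h + sh B (pp d n h) (ps d s ψ h') := by
  funext ξ
  change ψ _ = ψ _ + ψ ((s (ξ - pp d n h))⁻¹ * h' * s (ξ - pp d n h - pp d n h'))
  rw [← hψ _ _ (pp_arg hz hs h ξ) (pp_arg hz hs h' _), pp_mul hz, sub_add_eq_sub_sub]
  congr 1
  group

end Conc

end IND

open IND in
theorem rowIND : OfIND := by
  intro hL _ B _ _ Φ d P n H ψ hΦ hsq hd hP h5 hPd hH tor hψ hdP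
  have hH' : ∀ h, h ∈ H ↔ pp d n h = 0 := fun h =>
    (hH h).trans ⟨fun a => Prod.ext a.1 a.2, fun a => ⟨congrArg Prod.fst a, congrArg Prod.snd a⟩⟩
  choose s hs1 hs2 using sect hL hΦ hsq hP h5 hPd n
  have hmul := ps_mul hΦ.z hs2 (ψ := ψ) fun h h' a b => hψ.add h ((hH' h).2 a) h' ((hH' h').2 b)
  let A : AddSubgroup (Xi n → B) := AddSubgroup.closure (Set.range (ps d s ψ))
  have hA : ∀ h, ps d s ψ h ∈ A := fun h => AddSubgroup.subset_closure ⟨h, rfl⟩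
  have hS : ∀ a : Xi n, ∀ x : A, sh B a x ∈ A := by
    intro a x
    have h1 : A ≤ A.comap (sh B a) := by
      refine (AddSubgroup.closure_le _).2 ?_
      rintro _ ⟨h, rfl⟩
      have e := hmul (s a) h
      rw [hs2] at e
      change sh B a (ps d s ψ h) ∈ A
      rw [eq_sub_of_add_eq' e.symm]
      exact A.sub_mem (hA _) (hA _)
    exact h1 x.2
  let S : Xi n → A →+ A := fun a => ((sh B a).comp A.subtype).codRestrict A (hS a)
  let Ψ : Ga → A := fun h => ⟨ps d s ψ h, hA h⟩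
  have cnj : ∀ h, pp d n h = 0 → (∀ g, (g⁻¹ * h * g) ∈ H → ψ (g⁻¹ * h * g) = 0) → Ψ h = 0 := by
    intro h e hg
    refine Subtype.ext (funext fun ξ => ?_)
    have h1 := (hH' _).2 (pp_arg hΦ.z hs2 h ξ)
    change ψ ((s ξ)⁻¹ * h * s (ξ - pp d n h)) = 0
    rw [e, sub_zero] at h1 ⊢
    exact hg _ h1
  have D : Dt Φ d P n S Ψ := by
    refine ⟨fun x => Subtype.ext (funext fun ξ => ?_),
      fun a b x => Subtype.ext (funext fun ξ => ?_), fun h h' => Subtype.ext (hmul h h'),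
      fun W hW => ?_, fun h hh => Subtype.ext (funext fun ξ => ?_),
      fun l hl h e hh => cnj h e fun g hg => ?_, fun h e hh => cnj h e fun g hg => ?_, ?_⟩
    · change x.1 (ξ - 0) = x.1 ξ
      rw [sub_zero]
    · change x.1 (ξ - (a + b)) = x.1 (ξ - a - b)
      rw [sub_add_eq_sub_sub]
    · have h1 : A ≤ W.map A.subtype := by
        refine (AddSubgroup.closure_le _).2 ?_
        rintro _ ⟨h, rfl⟩
        exact ⟨Ψ h, hW h, rfl⟩
      rw [eq_top_iff]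
      intro x _
      obtain ⟨y, hy, e⟩ := h1 x.2
      rwa [← Subtype.ext e]
    · obtain ⟨-, -, -, -, g5, -⟩ := hL.grp _ (Φ.mx P hP).1
      exact hdP _ (Φ.mx P hP).1 (Φ.mx P hP).2 _ ((hH' _).2 (pp_arg hΦ.z hs2 h ξ))
        (g5 _ _ (g5 _ _ (g5 _ _ (hs1 ξ) (hs1 ξ)).2 hh).1 (hs1 _)).1
    · obtain ⟨Q', q1, -, q3, -⟩ := hL.cnj _ g (Φ.mx l hl).1
      exact hψ.unr Q' q1 _ hg (q3 h hh)
    · obtain ⟨Q', q1, q2, -, q4, -⟩ := hL.cnj _ g (Φ.mx 2 Nat.prime_two).1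
      refine hψ.two Q' q1 ((q2 _).2 ?_) _ hg (q4 h hh)
      have e2 : g • (2 : OO) = 2 := map_ofNat (MulSemiringAction.toRingHom Ga OO g) 2
      rw [e2]
      exact_mod_cast (Φ.mx 2 Nat.prime_two).2
    · obtain ⟨U, hU, hUH, hU'⟩ := hψ.opn
      refine ⟨U, hU, fun u hu => cnj u ((hH' u).1 (hUH hu)) fun g _ => hU' _ ?_⟩
      exact hU.1.conj_mem' u hu g
  have torA : ∀ y : A, ∃ k : ℕ, 2 ^ k • y = 0 := by
    intro y
    choose k hk using tor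
    refine ⟨Finset.univ.sup fun ξ => k (y.1 ξ), Subtype.ext (funext fun ξ => ?_)⟩
    obtain ⟨m, hm⟩ := Nat.exists_eq_add_of_le'
      (Finset.le_sup (f := fun ξ => k (y.1 ξ)) (Finset.mem_univ ξ))
    change 2 ^ (Finset.univ.sup fun ξ => k (y.1 ξ)) • y.1 ξ = 0
    rw [hm, pow_add, mul_smul, hk, smul_zero]
  have ev : ∀ h ∈ H, ∃ x : A, x.1 0 = ψ h := by
    intro h hh
    have e : pp d n (s 0 * h * (s 0)⁻¹) = 0 := by
      rw [pp_mul hΦ.z, pp_mul hΦ.z, pp_inv hΦ.z, (hH' h).1 hh]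
      abel
    refine ⟨Ψ (s 0 * h * (s 0)⁻¹), ?_⟩
    change ψ ((s 0)⁻¹ * (s 0 * h * (s 0)⁻¹) * s (0 - pp d n (s 0 * h * (s 0)⁻¹))) = ψ h
    rw [e, sub_zero]
    congr 1
    group
  obtain ⟨M, i1, i2, T, ψ', m1, m2, m3, m4, m5, m6⟩ := D.main hL hΦ hd hP h5 torA
  refine ⟨M, i1, i2, T, ψ', m1, m2, m3, m4, fun j hj h hh => ?_, fun h2 => ?_⟩
  · obtain ⟨x, hx⟩ := ev h hh
    rw [← hx]
    exact congrFun (congrArg Subtype.val (m5 j hj x)) 0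
  · obtain ⟨m7, m8⟩ := m6 fun b => Subtype.ext (funext fun ξ => h2 (b.1 ξ))
    refine ⟨m7, le_trans ?_ m8⟩
    have h1 : ψ '' H ⊆ (fun x : A => x.1 0) '' Set.univ := by
      rintro _ ⟨h, hh, rfl⟩
      obtain ⟨x, hx⟩ := ev h hh
      exact ⟨x, Set.mem_univ x, hx⟩
    refine (Set.ncard_le_ncard h1 (Set.toFinite _)).trans ?_
    exact (Set.ncard_image_le (Set.toFinite _)).trans (le_of_eq (Set.ncard_univ _))

end Pool.Agent.MP_1246c0_nt.H25
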