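import Pool.Agent.MP_1246c0_nt.H25.SpecR

/-! The mean number of solutions of the primal system. -/

namespace Pool.Agent.MP_1246c0_nt.H25

open Finset Matrix
open Pool.Agent.MP_1246c0_nt.H12

namespace RKN

variable {Λ ι : Type} [CommRing Λ] [Fintype ι] [DecidableEq ι]

theorem nu_succ (h2 : (2 : Λ) = 0) (t : Λ) (i : ℕ) : nu (i + 1) t = nu i t * t ^ 2 ^ i := by
  have h1 : ∀ i : ℕ, (1 + t) ^ 2 ^ i = 1 + t ^ 2 ^ i := by
    intro i
    induction i with
    | zero => simp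
    | succ i ih =>
      rw [pow_succ, pow_mul, pow_mul, ih]
      linear_combination t ^ 2 ^ i * h2
  unfold nu
  rw [pow_succ, mul_two, sum_range_add]
  simp only [pow_add, ← mul_sum, h1]
  linear_combination (∑ j ∈ range (2 ^ i), (1 + t) ^ j) * h2

theorem soc' (hQ : SQF) {G : Type} [AddCommGroup G] [Module Λ G] {st : Λ →+* Λ} {au : Λ →+* F2}
    {τ : Λ} {N : ℕ} (hL : LR st au τ N) {B J : Finset ι} {M : Matrix ι ι Λ}
    (det : ∀ y : ι → F2, (∀ l ∈ B, y l = 0) → (∀ l ∈ J, ∑ l', au (M l l') * y l' = 0) → y = 0)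
    (x : ι → G) (h1 : ∀ l ∈ B, x l = 0) (h2 : ∀ l ∈ J, ∑ l', M l l' • x l' = 0) : x = 0 := by
  refine hQ.soc Λ G ι (J ⊕ B) st au τ N
    (Sum.elim (fun l => M l.1) fun l => Pi.single l.1 1) hL (fun y hy => det y (fun l hl => ?_)
      fun l hl => hy (.inl ⟨l, hl⟩)) x ?_
  · simpa [Pi.single_apply, apply_ite au] using hy (.inr ⟨l, hl⟩)
  · rintro (⟨l, hl⟩ | ⟨l, hl⟩)
    · exact h2 l hl
    · simpa [Pi.single_apply] using h1 l hl

theorem onto (hQ : SQF) {W : Type} [AddCommGroup W] [Module Λ W] [Finite W] {st : Λ →+* Λ}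
    {au : Λ →+* F2} {τ : Λ} {N : ℕ} (hL : LR st au τ N) {B J : Finset ι} {M : Matrix ι ι Λ}
    (det : ∀ y : ι → F2, (∀ l ∈ B, y l = 0) → (∀ l ∈ J, ∑ l', au (M l' l) * y l' = 0) → y = 0)
    (t : ι → W) : ∃ z : ι → W, (∀ l, l ∉ J → z l = 0) ∧ ∀ l, l ∉ B → ap M z l = t l := by
  let R : AddSubgroup (ι → W) :=
    { carrier := {t | ∃ z : ι → W, (∀ l, l ∉ J → z l = 0) ∧ ∀ l, l ∉ B → ap M z l = t l}
      zero_mem' := ⟨0, fun _ _ => rfl, fun l _ => by simp [ap]⟩
      add_mem' := by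
        rintro a b ⟨z, h1, h2⟩ ⟨z', h1', h2'⟩
        refine ⟨z + z', fun l hl => by simp [h1 l hl, h1' l hl], fun l hl => ?_⟩
        rw [Pi.add_apply, ← h2 l hl, ← h2' l hl]
        simp [ap, sum_add_distrib]
      neg_mem' := by
        rintro a ⟨z, h1, h2⟩
        refine ⟨-z, fun l hl => by simp [h1 l hl], fun l hl => ?_⟩
        rw [Pi.neg_apply, ← h2 l hl]
        simp [ap] }
  have h2 : ∀ x : ι → W, x + x = 0 := fun x => by
    rw [← two_smul Λ x, hL.two, zero_smul]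
  refine ((hQ.dual (ι → W) h2).2.2 R).2 t fun μ hμ => ?_
  let _ : Module Λ (W →+ F2) :=
    Module.compHom (W →+ F2) (R := Λᵈᵐᵃ) (RingEquiv.toOpposite Λ).toRingHom
  have sm : ∀ (h : Λ) (ν : W →+ F2) (w : W), (h • ν) w = ν (h • w) := fun _ _ _ => rfl
  have h3 := soc' hQ hL (M := Mᵀ) det
    (fun l => μ.comp (AddMonoidHom.single (fun _ : ι => W) l)) (fun l hl => ?_) fun l hl => ?_
  · rw [← univ_sum_single t, map_sum]
    exact sum_eq_zero fun l _ => DFunLike.congr_fun (congrFun h3 l) (t l)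
  · ext w
    refine hμ _ ⟨0, fun _ _ => rfl, fun l' hl' => ?_⟩
    have : l' ≠ l := fun e => hl' (e ▸ hl)
    simp [ap, this]
  · ext w
    rw [AddMonoidHom.finsetSum_apply]
    simp only [sm, AddMonoidHom.comp_apply, AddMonoidHom.single_apply, transpose_apply,
      ← map_sum]
    rw [univ_sum_single fun l' => M l' l • w]
    refine hμ _ ⟨Pi.single l w, fun l' hl' => Pi.single_eq_of_ne (by rintro rfl; exact hl' hl) _,
      fun l' _ => ?_⟩
    simp [ap, Pi.single_apply]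

variable {G : Type} [AddCommGroup G] [Module Λ G]

/-- the pairs of a vector and of the values of the rows -/
def Dp (M : Matrix ι ι Λ) (B : Finset ι) (i1 : ι) (ok : ι → G → G → Prop) (x1 : G)
    (W : Submodule Λ G) (q : (ι → G) × (ι → G)) : Prop :=
  (∀ l, q.1 l ∈ W ∧ q.2 l ∈ W) ∧ q.1 i1 = x1 ∧ (∀ l, l ≠ i1 → ok l (q.1 l) (q.2 l)) ∧
    ∀ l, l ∉ B → q.2 l = ap M q.1 l

theorem count [Finite G] {M : Matrix ι ι Λ} {B J : Finset ι} {i1 : ι} (hJ : J ⊆ B) (hi : i1 ∉ B)
    {ok : ι → G → G → Prop} (hok : ∀ l, Fnl (ok l)) (hz : ∀ l ∈ J, ∀ y R, ok l y R → R = 0)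
    (x1 : G) (W : Submodule Λ G)
    (hσ : ∀ t : ι → W, ∃ z : ι → W, (∀ l, l ∉ J → z l = 0) ∧ ∀ l, l ∉ B → ap M z l = t l) :
    Nat.card {q // Dp M B i1 ok x1 W q} ≤ Nat.card W ^ B.card := by
  classical
  choose σ s1 s2 using fun t : {l // l ∉ B} → W =>
    hσ fun l => if h : l ∈ B then 0 else t ⟨l, h⟩
  have s3 : ∀ t l (h : l ∉ B), ap M (fun l => (σ t l : G)) l = t ⟨l, h⟩ := by
    intro t l h
    have := congrArg W.subtype (s2 t l h)
    simpa [ap, h] using this
  let Θ : {q // Dp M B i1 ok x1 W q} × ({l // l ∉ B} → W) → ι → W := fun p l =>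
    if l ∈ J then ⟨p.1.1.1 l, (p.1.2.1 l).1⟩ + σ p.2 l else if l = i1 then p.2 ⟨i1, hi⟩
    else if ∀ y R R', ok l y R → ok l y R' → R = R' then ⟨p.1.1.1 l, (p.1.2.1 l).1⟩
    else ⟨p.1.1.2 l, (p.1.2.1 l).2⟩
  have hΘ : Θ.Injective := by
    rintro ⟨⟨⟨x, ρ⟩, d1, d2, d3, d4⟩, t⟩ ⟨⟨⟨x', ρ'⟩, d1', d2', d3', d4'⟩, t'⟩ e
    have hiJ : i1 ∉ J := fun h => hi (hJ h)
    have a1 : ∀ l, l ∉ J → l ≠ i1 → x l = x' l ∧ ρ l = ρ' l := by
      intro l h1 h2
      have e1 := congrFun e l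
      simp only [Θ, if_neg h1, if_neg h2] at e1
      split_ifs at e1 with h3
      · have e2 : x l = x' l := congrArg Subtype.val e1
        exact ⟨e2, h3 (x l) _ _ (d3 l h2) (by rw [e2]; exact d3' l h2)⟩
      · have e2 : ρ l = ρ' l := congrArg Subtype.val e1
        exact ⟨(hok l).resolve_left h3 _ _ (ρ l) (d3 l h2) (by rw [e2]; exact d3' l h2), e2⟩
    have a2 : ∀ l, x l + σ t l = x' l + σ t' l := by
      intro l
      by_cases h1 : l ∈ J
      · have e1 := congrFun e l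
        simp only [Θ, if_pos h1] at e1
        exact congrArg Subtype.val e1
      · rw [s1 t l h1, s1 t' l h1]
        by_cases h2 : l = i1
        · rw [h2, show x i1 = x' i1 from d2.trans d2'.symm]
        · rw [(a1 l h1 h2).1]
    have a3 : t = t' := by
      funext ⟨l, hl⟩
      by_cases h2 : l = i1
      · have e1 := congrFun e i1
        simp only [Θ, if_neg hiJ, if_true] at e1
        subst h2
        exact e1
      · have e1 : ap M x l + ap M (fun l => (σ t l : G)) l =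
            ap M x' l + ap M (fun l => (σ t' l : G)) l := by
          simp only [ap, ← sum_add_distrib, ← smul_add, a2]
        rw [s3 t l hl, s3 t' l hl, ← d4 l hl, ← d4' l hl] at e1
        have e2 : ρ l = ρ' l := (a1 l (fun h => hl (hJ h)) h2).2
        change ρ l + _ = ρ' l + _ at e1
        rw [e2] at e1
        exact Subtype.ext (add_left_cancel e1)
    subst a3
    have a4 : x = x' := funext fun l => add_right_cancel (a2 l)
    subst a4
    have a5 : ρ = ρ' := by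
      funext l
      by_cases h2 : l = i1
      · rw [h2]
        exact (d4 i1 hi).trans (d4' i1 hi).symm
      · by_cases h1 : l ∈ J
        · exact (hz l h1 _ _ (d3 l h2)).trans (hz l h1 _ _ (d3' l h2)).symm
        · exact (a1 l h1 h2).2
    subst a5
    rfl
  have h1 := Nat.card_le_card_of_injective Θ hΘ
  have h2 : Nat.card ι = B.card + Nat.card {l // l ∉ B} := by
    rw [Nat.card_eq_fintype_card, Nat.card_eq_fintype_card, Fintype.card_subtype_compl,
      Fintype.card_coe, Nat.add_sub_cancel' (card_le_univ B)]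
  rw [Nat.card_prod, Nat.card_fun, Nat.card_fun, h2, pow_add] at h1
  exact Nat.le_of_mul_le_mul_right h1 (pow_pos Nat.card_pos _)

theorem core (hA : SAVG) (hQ : SQF) (hC : SCR) [Finite Λ] [Finite G] {st : Λ →+* Λ}
    {au : Λ →+* F2} {τ : Λ} {N : ℕ} (hL : LR st au τ N) {M : Matrix ι ι Λ} {B J : Finset ι}
    {i1 : ι} (hJ : J ⊆ B) (hi : i1 ∉ B) {γ : ℕ} (hG : Nat.card G = 2 ^ γ)
    (det : ∀ y : ι → F2, (∀ l ∈ B, y l = 0) → (∀ l ∈ J, ∑ l', au (M l l') * y l' = 0) → y = 0)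
    (cross : ∀ l ∈ J, ∀ l', l' ∉ B → au (M l' l) = au (M l l'))
    {ok : ι → G → G → Prop} (hok : ∀ l, Fnl (ok l)) (hz : ∀ l ∈ J, ∀ y R, ok l y R → R = 0)
    (x1 : G) :
    Ex (Hs st B B) (fun H => Nat.card {x : ι → G // x i1 = x1 ∧
      ∀ l, l ≠ i1 → ok l (x l) (ap (M + H) x l)}) ≤ 2 ^ (3 * γ * γ) := by
  classical
  have := Fintype.ofFinite ((ι → G) × (ι → G))
  have := Fintype.ofFinite (Submodule Λ G)
  have det' : ∀ y : ι → F2, (∀ l ∈ B, y l = 0) → (∀ l ∈ J, ∑ l', au (M l' l) * y l' = 0) →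
      y = 0 := fun y h1 h2 => det y h1 fun l hl => by
    rw [← h2 l hl]
    refine sum_congr rfl fun l' _ => ?_
    by_cases h : l' ∈ B
    · rw [h1 l' h, mul_zero, mul_zero]
    · rw [cross l hl l' h]
  have apa : ∀ (H : Matrix ι ι Λ) (x : ι → G) l, ap (M + H) x l = ap M x l + ap H x l :=
    fun H x l => by simp [ap, add_smul, sum_add_distrib]
  let p : Matrix ι ι Λ → (ι → G) × (ι → G) → Prop := fun H q =>
    Dp M B i1 ok x1 (sp Λ q.1 B) q ∧ ∀ l ∈ B, ap H q.1 l = q.2 l - ap M q.1 l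
  have a1 : ∀ H ∈ Hs st B B, (Nat.card {x : ι → G // x i1 = x1 ∧
      ∀ l, l ≠ i1 → ok l (x l) (ap (M + H) x l)} : ℝ) ≤ Nat.card {q // p H q} := by
    intro H hH
    have key : ∀ x : {x : ι → G // x i1 = x1 ∧ ∀ l, l ≠ i1 → ok l (x l) (ap (M + H) x l)},
        p H (x.1, ap (M + H) x.1) := by
      rintro ⟨x, h1, h2⟩
      have hB : ∀ l ∈ B, (sp Λ x B).mkQ (x l) = 0 := fun l hl =>
        (Submodule.Quotient.mk_eq_zero _).2 (Submodule.subset_span ⟨l, hl, rfl⟩)
      have b1 := soc' hQ hL det (fun l => (sp Λ x B).mkQ (x l)) hB fun l hl => by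
        have c1 := congrArg (sp Λ x B).mkQ (hz l hl _ _ (h2 l fun e => hi (e ▸ hJ hl)))
        rw [apa, map_add, map_zero] at c1
        have c2 : (sp Λ x B).mkQ (ap H x l) = 0 := by
          rw [ap, map_sum]
          refine sum_eq_zero fun l' _ => ?_
          by_cases h : l' ∈ B
          · rw [map_smul, hB l' h, smul_zero]
          · rw [hH.2.2 l l' fun c => h c.2.1, zero_smul, map_zero]
        rw [c2, add_zero, ap, map_sum] at c1
        simpa only [map_smul] using c1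
      have b2 : ∀ l, x l ∈ sp Λ x B := fun l =>
        (Submodule.Quotient.mk_eq_zero _).1 (congrFun b1 l)
      refine ⟨⟨fun l => ⟨b2 l, sum_mem fun l' _ => Submodule.smul_mem _ _ (b2 l')⟩, h1, h2,
        fun l hl => ?_⟩, fun l _ => ?_⟩
      · change ap (M + H) x l = ap M x l
        rw [apa, add_eq_left]
        exact sum_eq_zero fun l' _ => by rw [hH.2.2 l l' fun c => hl c.1, zero_smul]
      · change ap H x l = ap (M + H) x l - ap M x l
        rw [apa, add_sub_cancel_left]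
    exact_mod_cast Nat.card_le_card_of_injective (fun x => (⟨_, key x⟩ : {q // p H q}))
      fun x x' e => Subtype.ext (congrArg (fun q => q.1.1) e)
  refine (hA.mono _ _ _ _ a1).trans ?_
  rw [hA.cnt, ← sum_fiberwise univ fun q : (ι → G) × (ι → G) => sp Λ q.1 B]
  have a2 : ∀ W ∈ (univ : Finset (Submodule Λ G)),
      ∑ q ∈ univ.filter fun q : (ι → G) × (ι → G) => sp Λ q.1 B = W,
        Ex (Hs st B B) (fun H => ind (p H q)) ≤ 2 ^ (2 * γ * γ) := by
    intro W _
    have hW : (0 : ℝ) < (Nat.card W : ℝ) ^ B.card := pow_pos (by exact_mod_cast Nat.card_pos) _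
    have b1 : ∀ q ∈ univ.filter fun q : (ι → G) × (ι → G) => sp Λ q.1 B = W,
        Ex (Hs st B B) (fun H => ind (p H q)) ≤
          if Dp M B i1 ok x1 W q then 2 ^ (2 * γ * γ) / (Nat.card W : ℝ) ^ B.card else 0 := by
      intro q hq
      have e := (mem_filter.1 hq).2
      split_ifs with h
      · have c1 := hC Λ ι G st B B γ q.1 (fun l => q.2 l - ap M q.1 l) hL.inv subset_rfl hG
        rw [sdiff_self, bot_eq_empty, card_empty, pow_zero, mul_one, e] at c1
        refine (hA.mono _ _ _ _ fun H _ => ?_).trans c1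
        unfold ind
        by_cases h1 : p H q
        · rw [if_pos h1, if_pos h1.2]
        · rw [if_neg h1]
          split_ifs <;> norm_num
      · refine (hA.mono _ _ _ (fun _ => 0) fun H _ => ?_).trans (hA.const _ _ _).le
        unfold ind
        rw [if_neg fun c : p H q => h (e ▸ c.1)]
    refine (sum_le_sum b1).trans ((sum_le_sum_of_subset_of_nonneg (filter_subset _ _)
      fun q _ _ => by positivity).trans ?_)
    have b2 := count hJ hi hok hz x1 W (onto hQ hL det')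
    rw [Nat.card_eq_fintype_card, Fintype.card_subtype] at b2
    rw [← sum_filter, sum_const, nsmul_eq_mul, ← mul_div_assoc, div_le_iff₀ hW, mul_comm]
    refine mul_le_mul_of_nonneg_left ?_ (by positivity)
    exact_mod_cast b2
  refine (sum_le_card_nsmul _ _ _ a2).trans ?_
  have a3 := (hQ.few Λ G ι γ hG).1
  rw [card_univ, ← Nat.card_eq_fintype_card, nsmul_eq_mul,
    show 3 * γ * γ = γ * γ + 2 * γ * γ by ring, pow_add]
  refine mul_le_mul_of_nonneg_right ?_ (by positivity)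
  exact_mod_cast a3

end RKN

open RKN in
theorem rowRKN : OfRKN := by
  intro hA hQ hC Λ ι _ _ _ _ st au g n lv e B i1 M c tp j0 ℓ φ s u a hx hm ha
  let _ : Module Λ (Vb ℓ) := Module.compHom (Vb ℓ) φ
  have hG : Nat.card (Vb ℓ) = 2 ^ ℓ := by simp
  have hL := hx.lg.lr
  let ok : Vb ℓ × Vb ℓ × Vb ℓ → ι → Vb ℓ → Vb ℓ → Prop := fun π l y R =>
    rlP φ g s u a (lv l) y (R + e l • π.2.1 + φ (nu (lv l) (g - 1)) *ᵥ π.1)
  have hok : ∀ π l, Fnl (ok π l) := by
    intro π l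
    simp only [Fnl, ok, rlP]
    split_ifs
    · exact Or.inr fun y y' R h h' => h.trans h'.symm
    · exact Or.inl fun y R R' h h' => add_right_cancel (add_right_cancel (h.trans h'.symm))
    · exact Or.inl fun y R R' h h' => add_right_cancel (add_right_cancel (h.trans h'.symm))
  have hz : ∀ π, ∀ l ∈ B.filter fun l => tp / 2 < lv l ∧ e l = 0, ∀ y R, ok π l y R → R = 0 := by
    intro π l hl y R h
    obtain ⟨-, h1, h2⟩ := mem_filter.1 hl
    have h3 : φ (nu (lv l) (g - 1)) = 0 := by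
      obtain ⟨k, hk⟩ : ∃ k, lv l = a + k + 1 := ⟨lv l - a - 1, by omega⟩
      obtain ⟨k', hk'⟩ : ∃ k', 2 ^ (a + k) = 2 ^ a + k' :=
        Nat.exists_eq_add_of_le (Nat.pow_le_pow_right two_pos (Nat.le_add_right a k))
      rw [hk, nu_succ hL.two, hk', pow_add, map_mul, map_mul, hm.ta, zero_mul, mul_zero]
    simp only [ok, rlP] at h
    rw [if_neg (by omega), if_neg (by omega), h2, h3] at h
    simpa using h
  have a1 : ∀ π : Vb ℓ × Vb ℓ × Vb ℓ, Ex (Hs st B B) (fun H => Nat.card {x : ι → Vb ℓ //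
      x i1 = π.2.2 ∧ ∀ l, l ≠ i1 → ok π l (x l) (ap (M + H) x l)}) ≤ 2 ^ (3 * ℓ * ℓ) := fun π =>
    core hA hQ hC hL (filter_subset _ _) hx.nb hG
      (fun y h1 h2 => by_contra fun h3 => by
        obtain ⟨l, b1, b2, b3, b4⟩ := hx.nc.det y h1 h3
        exact zero_ne_one ((h2 l (mem_filter.2 ⟨b1, b2, b3⟩)).symm.trans b4))
      (fun l hl l' hl' => hx.nc.cross l (mem_filter.1 hl).1 l' hl' (mem_filter.1 hl).2.2)
      (hok π) (hz π) π.2.2
  have a2 : ∀ H ∈ Hs st B B, (nP φ g s u a lv e i1 (M + H) c : ℝ) ≤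
      ∑ π : Vb ℓ × Vb ℓ × Vb ℓ, (Nat.card {x : ι → Vb ℓ //
        x i1 = π.2.2 ∧ ∀ l, l ≠ i1 → ok π l (x l) (ap (M + H) x l)} : ℝ) := by
    intro H _
    rw [← Nat.cast_sum, ← Nat.card_sigma, Nat.cast_le,
      ← Nat.card_congr (Equiv.subtypeProdEquivSigmaSubtype fun (π : Vb ℓ × Vb ℓ × Vb ℓ)
        (x : ι → Vb ℓ) => x i1 = π.2.2 ∧ ∀ l, l ≠ i1 → ok π l (x l) (ap (M + H) x l))]
    refine Nat.card_le_card_of_injective (fun v => ⟨((v.2.choose, v.1 none, v.1 (some i1)),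
      fun l => v.1 (some l)), rfl, v.2.choose_spec.row⟩) fun v v' h => Subtype.ext ?_
    funext o
    cases o with
    | none => exact congrArg (fun q => q.1.1.2.1) h
    | some l => exact congrArg (fun q => q.1.2 l) h
  refine (hA.mono _ _ _ _ a2).trans ?_
  rw [hA.sum]
  refine (sum_le_card_nsmul _ _ _ fun π _ => a1 π).trans (le_of_eq ?_)
  simp only [card_univ, Fintype.card_prod, Fintype.card_fun, ZMod.card, Fintype.card_fin,
    nsmul_eq_mul]
  push_cast
  ring

end Pool.Agent.MP_1246c0_nt.H25
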